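import Mathlib
import Pool.Agent.Helper92.Field.PerQ

/-! Counting polynomials with a small value at a real number `θ`, using three coefficients. -/

set_option autoImplicit false

namespace Pool.Agent.Helper92.Avg2

open Finset Pool.Agent.Helper92.Field

/-- Shifted version of `card_near`. -/
lemma card_near_shift {d H : ℕ} (hd : 0 < d) (hH : 0 < H) (x : Fin d → ℝ) (y : ℝ) {δ : ℝ}
    (hδ : 0 < δ) (S : Finset (Fin d → ℤ))
    (hS : ∀ a ∈ S, (∀ i, |a i| ≤ (H : ℤ)) ∧ ∃ n : ℤ, |∑ i, (a i : ℝ) * x i + y - n| ≤ δ) :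
    (S.card : ℝ) ≤ 192 * (12 * d) ^ d * (H : ℝ) ^ d *
      (δ * (1 + 2 * ((posSet x (Kof δ) (1 / (6 * d * H))).card : ℝ))) := by
  have hdR : (1 : ℝ) ≤ d := by exact_mod_cast hd
  have hHR : (1 : ℝ) ≤ H := by exact_mod_cast hH
  have hτ : (0 : ℝ) ≤ 1 / (6 * d * H) := by positivity
  have hdual := card_dualSet_le x (Kof δ) (1 / (6 * (d : ℝ) * H))
  have hdualR : ((dualSet x (Kof δ) (1 / (6 * (d : ℝ) * H))).card : ℝ)
      ≤ 1 + 2 * ((posSet x (Kof δ) (1 / (6 * d * H))).card : ℝ) := by exact_mod_cast hdual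
  by_cases h24 : 24 * δ ≤ 1
  · have hone : 1 ≤ 1 / (24 * δ) := by
      rw [le_div_iff₀ (by positivity)]; linarith
    have hfl : 1 ≤ ⌊1 / (24 * δ)⌋₊ := by
      rw [Nat.one_le_floor_iff]; exact hone
    have hKeq : Kof δ = ⌊1 / (24 * δ)⌋₊ := max_eq_right hfl
    have hKpos : 0 < Kof δ := by rw [hKeq]; exact hfl
    have hKle : (Kof δ : ℝ) ≤ 1 / (24 * δ) := by
      rw [hKeq]; exact Nat.floor_le (by positivity)
    have hK24 : 24 * (Kof δ : ℝ) * δ ≤ 1 := by
      rw [le_div_iff₀ (by positivity)] at hKle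
      linarith
    have hKge : 1 / (48 * δ) ≤ (Kof δ : ℝ) := by
      have h1 := Nat.lt_floor_add_one (1 / (24 * δ))
      rw [← hKeq] at h1
      have h2 : (1 : ℝ) ≤ Kof δ := by exact_mod_cast hKpos
      have h3 : 1 / (48 * δ) = (1 / (24 * δ)) / 2 := by field_simp; norm_num
      rw [h3]
      linarith
    have ht := transference hd hKpos hH x y hδ hK24 S hS
    have h48 : (1 : ℝ) ≤ Kof δ * (48 * δ) := by
      rw [div_le_iff₀ (by positivity)] at hKge
      exact hKge
    calc (S.card : ℝ) ≤ S.card * (Kof δ * (48 * δ)) := by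
          have : (0 : ℝ) ≤ S.card := by positivity
          nlinarith
      _ = (S.card * Kof δ) * (48 * δ) := by ring
      _ ≤ (4 * (12 * d * H) ^ d * ((dualSet x (Kof δ) (1 / (6 * d * H))).card : ℝ)) * (48 * δ) := by
          gcongr
      _ ≤ (4 * (12 * d * H) ^ d * (1 + 2 * ((posSet x (Kof δ) (1 / (6 * d * H))).card : ℝ)))
            * (48 * δ) := by gcongr
      _ = _ := by rw [mul_pow (12 * (d : ℝ))]; ring
  · push Not at h24
    have hbox : S ⊆ Avg.box d H := by
      intro a ha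
      rw [Avg.mem_box]
      exact (hS a ha).1
    have hcard : (S.card : ℝ) ≤ (2 * (H : ℝ) + 1) ^ d := by
      have h1 := card_le_card hbox
      have h2 : (Avg.box d H).card = (2 * H + 1) ^ d := by
        unfold Avg.box
        rw [Fintype.card_piFinset_const, Int.card_Icc]
        congr 1
        omega
      rw [h2] at h1
      exact_mod_cast h1
    calc (S.card : ℝ) ≤ (2 * (H : ℝ) + 1) ^ d := hcard
      _ ≤ (12 * d * H) ^ d := by
          apply pow_le_pow_left₀ (by positivity)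
          nlinarith
      _ = (12 * (d : ℝ)) ^ d * (H : ℝ) ^ d * 1 := by rw [mul_pow, mul_one]
      _ ≤ (12 * (d : ℝ)) ^ d * (H : ℝ) ^ d * (192 *
          (δ * (1 + 2 * ((posSet x (Kof δ) (1 / (6 * d * H))).card : ℝ)))) := by
          apply mul_le_mul_of_nonneg_left _ (by positivity)
          have h1 : (0 : ℝ) ≤ ((posSet x (Kof δ) (1 / (6 * d * H))).card : ℝ) := by positivity
          nlinarith
      _ = _ := by ring

/-- The vector `(θ, θ²)`. -/
def vec2 (θ : ℝ) : Fin 2 → ℝ := fun i => θ ^ ((i : ℕ) + 1)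

open Classical in
/-- Polynomials of degree at most `e + 2` and height at most `H` with a small value at `θ`. -/
lemma card_small_value {e H : ℕ} (hH : 0 < H) (θ : ℝ) {δ : ℝ} (hδ : 0 < δ) (hδ2 : δ < 1 / 2) :
    (((Avg.box (e + 3) H).filter fun a => |∑ i : Fin (e + 3), (a i : ℝ) * θ ^ (i : ℕ)| ≤ δ).card : ℝ)
      ≤ (2 * (H : ℝ) + 1) ^ e * (192 * 24 ^ 2 * (H : ℝ) ^ 2 *
        (δ * (1 + 2 * ((posSet (vec2 θ) (Kof δ) (1 / (12 * H))).card : ℝ)))) := by
  set T := (Avg.box (e + 3) H).filter fun a => |∑ i : Fin (e + 3), (a i : ℝ) * θ ^ (i : ℕ)| ≤ δ with hT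
  set tl : (Fin (e + 3) → ℤ) → (Fin e → ℤ) := fun a i => a i.succ.succ.succ with htl
  have hmaps : ∀ a ∈ T, tl a ∈ Avg.box e H := by
    intro a ha
    rw [hT, mem_filter, Avg.mem_box] at ha
    rw [Avg.mem_box]
    intro i
    exact ha.1 _
  have hsum : ∀ a : Fin (e + 3) → ℤ, ∑ i, (a i : ℝ) * θ ^ (i : ℕ)
      = a 0 + (∑ i : Fin 2, ((fun i : Fin 2 => a (Fin.castLE (by omega) i.succ)) i : ℝ) * vec2 θ i
        + ∑ i : Fin e, ((tl a i : ℤ) : ℝ) * θ ^ ((i : ℕ) + 3)) := by
    intro a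
    rw [Fin.sum_univ_succ, Fin.sum_univ_succ, Fin.sum_univ_succ, Fin.sum_univ_two]
    have e1 : (Fin.castLE (by omega : 3 ≤ e + 3) (0 : Fin 2).succ) = (1 : Fin (e + 3)) := by
      ext; simp
    have e2 : (Fin.castLE (by omega : 3 ≤ e + 3) (1 : Fin 2).succ) = (2 : Fin (e + 3)) := by
      apply Fin.ext; rw [Fin.val_two]; rfl
    simp only [vec2, htl]
    have e3 : (Fin.succ (0 : Fin (e + 2))) = (1 : Fin (e + 3)) := by ext; simp
    have e4 : (Fin.succ (Fin.succ (0 : Fin (e + 1)))) = (2 : Fin (e + 3)) := by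
      apply Fin.ext; rw [Fin.val_two]; rfl
    rw [e1, e2, e3, e4]
    simp only [Fin.val_zero, pow_zero, mul_one, Fin.val_succ, zero_add, pow_one]
    have e5 : ((1 : Fin (e + 3)) : ℕ) = 1 := by simp
    have e6 : ((2 : Fin (e + 3)) : ℕ) = 2 := by simp
    have e7 : ((1 : Fin 2) : ℕ) = 1 := by simp
    rw [e5, e6, e7]
    ring
  have hcount := Finset.card_eq_sum_card_fiberwise (f := tl) (s := T) (t := Avg.box e H) hmaps
  have hbound : ∀ t ∈ Avg.box e H, ((T.filter fun a => tl a = t).card : ℝ)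
      ≤ 192 * 24 ^ 2 * (H : ℝ) ^ 2 *
        (δ * (1 + 2 * ((posSet (vec2 θ) (Kof δ) (1 / (12 * H))).card : ℝ))) := by
    intro t _
    set y : ℝ := ∑ i : Fin e, ((t i : ℤ) : ℝ) * θ ^ ((i : ℕ) + 3) with hy
    set pr : (Fin (e + 3) → ℤ) → (Fin 2 → ℤ) := fun a i => a (Fin.castLE (by omega) i.succ) with hpr
    have hS := card_near_shift (d := 2) (by norm_num) hH (vec2 θ) y hδ
      ((T.filter fun a => tl a = t).image pr) ?_
    · rw [card_image_of_injOn] at hS
      · have e1 : (1 : ℝ) / (6 * ((2 : ℕ) : ℝ) * H) = 1 / (12 * H) := by push_cast; ring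
        rw [e1] at hS
        refine hS.trans (le_of_eq ?_)
        push_cast
        norm_num
      · intro a ha a' ha' haa
        rw [Finset.mem_coe, mem_filter, hT, mem_filter] at ha ha'
        obtain ⟨⟨_, h1⟩, h2⟩ := ha
        obtain ⟨⟨_, h1'⟩, h2'⟩ := ha'
        have h0 : a 0 = a' 0 := by
          rw [hsum a] at h1
          rw [hsum a'] at h1'
          have e8 : (fun i : Fin 2 => a (Fin.castLE (by omega) i.succ))
              = (fun i : Fin 2 => a' (Fin.castLE (by omega) i.succ)) := haa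
          rw [e8, h2] at h1
          rw [h2'] at h1'
          have h3 : |((a 0 - a' 0 : ℤ) : ℝ)| < 1 := by
            push_cast
            have h4 := abs_sub ((a 0 : ℝ) + (∑ i : Fin 2,
              ((fun i : Fin 2 => a' (Fin.castLE (by omega) i.succ)) i : ℝ) * vec2 θ i
              + ∑ i : Fin e, ((t i : ℤ) : ℝ) * θ ^ ((i : ℕ) + 3)))
              ((a' 0 : ℝ) + (∑ i : Fin 2,
              ((fun i : Fin 2 => a' (Fin.castLE (by omega) i.succ)) i : ℝ) * vec2 θ i
              + ∑ i : Fin e, ((t i : ℤ) : ℝ) * θ ^ ((i : ℕ) + 3)))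
            rw [add_sub_add_right_eq_sub] at h4
            linarith
          have h5 : |a 0 - a' 0| < 1 := by exact_mod_cast h3
          have h6 := Int.abs_lt_one_iff.mp h5
          linarith
        have h12 : ∀ i : Fin 2, a (Fin.castLE (by omega) i.succ) = a' (Fin.castLE (by omega) i.succ) :=
          fun i => congrFun haa i
        have h3 : ∀ i : Fin e, a i.succ.succ.succ = a' i.succ.succ.succ := by
          intro i
          have h4 := congrFun (h2.trans h2'.symm) i
          exact h4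
        ext i
        refine Fin.cases h0 (fun i => ?_) i
        refine Fin.cases ?_ (fun i => ?_) i
        · have := h12 0
          have e1 : (Fin.castLE (by omega : 3 ≤ e + 3) (0 : Fin 2).succ)
              = Fin.succ (0 : Fin (e + 2)) := by ext; simp
          rw [e1] at this
          exact this
        refine Fin.cases ?_ (fun i => h3 i) i
        have := h12 1
        have e2 : (Fin.castLE (by omega : 3 ≤ e + 3) (1 : Fin 2).succ)
            = Fin.succ (Fin.succ (0 : Fin (e + 1))) := by apply Fin.ext; rfl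
        rw [e2] at this
        exact this
    · intro b hb
      rw [mem_image] at hb
      obtain ⟨a, ha, rfl⟩ := hb
      rw [mem_filter, hT, mem_filter, Avg.mem_box] at ha
      obtain ⟨⟨h1, h2⟩, h3⟩ := ha
      refine ⟨fun i => h1 _, -a 0, ?_⟩
      rw [hsum a, h3] at h2
      push_cast
      have e1 : ∑ i, ((pr a i : ℤ) : ℝ) * vec2 θ i + y - -(a 0 : ℝ)
          = (a 0 : ℝ) + (∑ i : Fin 2, ((fun i : Fin 2 => a (Fin.castLE (by omega) i.succ)) i : ℝ)
            * vec2 θ i + ∑ i : Fin e, ((t i : ℤ) : ℝ) * θ ^ ((i : ℕ) + 3)) := by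
        rw [hy]
        ring
      rw [e1]
      exact h2
  have hboxcard : ((Avg.box e H).card : ℝ) = (2 * (H : ℝ) + 1) ^ e := by
    have h2 : (Avg.box e H).card = (2 * H + 1) ^ e := by
      unfold Avg.box
      rw [Fintype.card_piFinset_const, Int.card_Icc]
      congr 1
      omega
    rw [h2]; push_cast; ring
  calc (T.card : ℝ) = ∑ t ∈ Avg.box e H, ((T.filter fun a => tl a = t).card : ℝ) := by
        exact_mod_cast hcount
    _ ≤ ∑ t ∈ Avg.box e H, (192 * 24 ^ 2 * (H : ℝ) ^ 2 *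
        (δ * (1 + 2 * ((posSet (vec2 θ) (Kof δ) (1 / (12 * H))).card : ℝ)))) :=
        Finset.sum_le_sum hbound
    _ = _ := by rw [sum_const, nsmul_eq_mul, hboxcard]

end Pool.Agent.Helper92.Avg2
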