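import Mathlib
import Pool.Agent.Helper92.Field.LS

/-! Counting integers `j` with `j² / l` close to an integer, via quadratic Gauss sums. -/

set_option autoImplicit false

namespace Pool.Agent.Helper92.Avg2

open Finset Pool.Agent.Helper92.Field

/-- Quadratic Gauss sum. -/
noncomputable def G (l : ℕ) [NeZero l] (t : ZMod l) : ℂ :=
  ∑ j : ZMod l, (ZMod.stdAddChar (N := l) (t * j ^ 2) : ℂ)

lemma card_zero (l : ℕ) [NeZero l] (u : ℕ) :
    ((univ : Finset (ZMod l)).filter fun s => (u : ZMod l) * s = 0).card ≤ Nat.gcd u l := by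
  have hl : 0 < l := NeZero.pos l
  set g := Nat.gcd u l with hg
  have hgpos : 0 < g := Nat.gcd_pos_of_pos_right _ hl
  obtain ⟨l', hl'⟩ : g ∣ l := Nat.gcd_dvd_right _ _
  obtain ⟨u', hu'⟩ : g ∣ u := Nat.gcd_dvd_left _ _
  have hcop : Nat.Coprime l' u' := by
    have h1 := Nat.coprime_div_gcd_div_gcd (m := u) (n := l) hgpos
    rw [← hg, hl', hu', Nat.mul_div_cancel_left _ hgpos, Nat.mul_div_cancel_left _ hgpos] at h1
    exact h1.symm
  have hl'pos : 0 < l' := by
    rcases Nat.eq_zero_or_pos l' with h | h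
    · rw [h, mul_zero] at hl'; omega
    · exact h
  have hsub : (((univ : Finset (ZMod l)).filter fun s => (u : ZMod l) * s = 0).image
      (fun s => s.val / l')) ⊆ range g := by
    intro x hx
    rw [mem_image] at hx
    obtain ⟨s, _, rfl⟩ := hx
    rw [mem_range]
    have h1 := ZMod.val_lt s
    rw [Nat.div_lt_iff_lt_mul hl'pos]
    rw [← hl']; exact h1
  have hdvd : ∀ s : ZMod l, (u : ZMod l) * s = 0 → l' ∣ s.val := by
    intro s hs
    have h1 : ((u * s.val : ℕ) : ZMod l) = 0 := by
      push_cast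
      rw [ZMod.natCast_zmod_val]
      exact hs
    rw [ZMod.natCast_eq_zero_iff] at h1
    obtain ⟨k, hk⟩ := h1
    have h2 : l' ∣ u' * s.val := by
      refine ⟨k, ?_⟩
      apply Nat.eq_of_mul_eq_mul_left hgpos
      calc g * (u' * s.val) = u * s.val := by rw [hu']; ring
        _ = l * k := hk
        _ = g * (l' * k) := by rw [← mul_assoc, ← hl']
    exact hcop.dvd_of_dvd_mul_left h2
  have hinj : Set.InjOn (fun s : ZMod l => s.val / l')
      ((univ : Finset (ZMod l)).filter fun s => (u : ZMod l) * s = 0 : Finset (ZMod l)) := by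
    intro s hs s' hs' h
    rw [Finset.mem_coe, mem_filter] at hs hs'
    obtain ⟨k, hk⟩ := hdvd s hs.2
    obtain ⟨k', hk'⟩ := hdvd s' hs'.2
    simp only at h
    rw [hk, hk', Nat.mul_div_cancel_left _ hl'pos, Nat.mul_div_cancel_left _ hl'pos] at h
    apply ZMod.val_injective l
    rw [hk, hk', h]
  rw [← card_image_of_injOn hinj]
  calc _ ≤ (range g).card := card_le_card hsub
    _ = g := card_range g

lemma norm_G_sq (l : ℕ) [NeZero l] (t : ZMod l) (u : ℕ) (hu : (u : ZMod l) = 2 * t) :
    ‖G l t‖ ^ 2 ≤ (l : ℝ) * (Nat.gcd u l : ℝ) := by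
  have h1 : ((‖G l t‖ ^ 2 : ℝ) : ℂ)
      = ∑ s : ZMod l, (ZMod.stdAddChar (N := l) (t * s ^ 2) : ℂ) *
          (if (u : ZMod l) * s = 0 then (l : ℂ) else 0) := by
    push_cast
    rw [← Complex.mul_conj']
    unfold G
    rw [map_sum, Finset.sum_mul_sum]
    have h2 : ∀ j : ZMod l, ∑ j' : ZMod l, (ZMod.stdAddChar (N := l) (t * j ^ 2) : ℂ) *
        (starRingEnd ℂ) (ZMod.stdAddChar (N := l) (t * j' ^ 2) : ℂ)
        = ∑ s : ZMod l, (ZMod.stdAddChar (N := l) (t * j ^ 2) : ℂ) *
        (starRingEnd ℂ) (ZMod.stdAddChar (N := l) (t * (j - s) ^ 2) : ℂ) := by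
      intro j
      rw [← Equiv.sum_comp (Equiv.subLeft j)]
      rfl
    simp_rw [h2]
    rw [Finset.sum_comm]
    apply Finset.sum_congr rfl
    intro s _
    have h3 : ∀ j : ZMod l, (ZMod.stdAddChar (N := l) (t * j ^ 2) : ℂ) *
        (starRingEnd ℂ) (ZMod.stdAddChar (N := l) (t * (j - s) ^ 2) : ℂ)
        = (ZMod.stdAddChar (N := l) (-(t * s ^ 2)) : ℂ) *
          (ZMod.stdAddChar (N := l) (j * ((u : ZMod l) * s)) : ℂ) := by
      intro j
      rw [← AddChar.map_neg_eq_conj, ← AddChar.map_add_eq_mul, ← AddChar.map_add_eq_mul, hu]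
      congr 1
      ring
    simp_rw [h3]
    rw [← Finset.mul_sum]
    have h4 := AddChar.sum_mulShift (R := ZMod l) (R' := ℂ) ((u : ZMod l) * s)
      (ZMod.isPrimitive_stdAddChar l)
    rw [h4, ZMod.card]
    split_ifs with h5
    · -- then `ψ(-t s²) = ψ(t s²)` as `2 t s = 0`
      congr 2
      · have h6 : t * s ^ 2 + t * s ^ 2 = 0 := by
          have : t * s ^ 2 + t * s ^ 2 = ((u : ZMod l) * s) * s := by rw [hu]; ring
          rw [this, h5, zero_mul]
        exact neg_eq_of_add_eq_zero_left h6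
    · simp
  have h2 : (‖G l t‖ ^ 2 : ℝ) = ‖∑ s : ZMod l, (ZMod.stdAddChar (N := l) (t * s ^ 2) : ℂ) *
          (if (u : ZMod l) * s = 0 then (l : ℂ) else 0)‖ := by
    rw [← h1, Complex.norm_real, Real.norm_of_nonneg (by positivity)]
  rw [h2]
  calc _ ≤ ∑ s : ZMod l, ‖(ZMod.stdAddChar (N := l) (t * s ^ 2) : ℂ) *
          (if (u : ZMod l) * s = 0 then (l : ℂ) else 0)‖ := norm_sum_le _ _
    _ = ∑ s : ZMod l, (if (u : ZMod l) * s = 0 then (l : ℝ) else 0) := by
        apply Finset.sum_congr rfl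
        intro s _
        rw [norm_mul]
        have : ‖(ZMod.stdAddChar (N := l) (t * s ^ 2) : ℂ)‖ = 1 := AddChar.norm_apply _ _
        rw [this, one_mul]
        split_ifs <;> simp
    _ = (l : ℝ) * (((univ : Finset (ZMod l)).filter fun s => (u : ZMod l) * s = 0).card : ℝ) := by
        rw [← Finset.sum_filter, Finset.sum_const, nsmul_eq_mul, mul_comm]
    _ ≤ _ := by
        have := card_zero l u
        gcongr

/-- Sum of gcd's. -/
lemma sum_gcd (l M : ℕ) (hl : 0 < l) :
    (∑ t ∈ Ioc 0 (M - 1), (Nat.gcd (2 * t) l : ℝ)) ≤ 2 * M * (l.divisors.card : ℝ) := by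
  have h1 : ∀ t : ℕ, (Nat.gcd (2 * t) l : ℝ)
      ≤ ∑ g ∈ l.divisors, (if g ∣ 2 * t then (g : ℝ) else 0) := by
    intro t
    have hmem : Nat.gcd (2 * t) l ∈ l.divisors :=
      Nat.mem_divisors.mpr ⟨Nat.gcd_dvd_right _ _, hl.ne'⟩
    have h2 := Finset.single_le_sum (f := fun g : ℕ => if g ∣ 2 * t then (g : ℝ) else 0)
      (fun g _ => by positivity) hmem
    simp only [Nat.gcd_dvd_left, if_true] at h2
    exact h2
  calc (∑ t ∈ Ioc 0 (M - 1), (Nat.gcd (2 * t) l : ℝ))
      ≤ ∑ t ∈ Ioc 0 (M - 1), ∑ g ∈ l.divisors, (if g ∣ 2 * t then (g : ℝ) else 0) :=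
        Finset.sum_le_sum fun t _ => h1 t
    _ = ∑ g ∈ l.divisors, ∑ t ∈ Ioc 0 (M - 1), (if g ∣ 2 * t then (g : ℝ) else 0) :=
        Finset.sum_comm
    _ ≤ ∑ g ∈ l.divisors, (2 * M : ℝ) := by
        apply Finset.sum_le_sum
        intro g hg
        have hgpos : 0 < g := Nat.pos_of_mem_divisors hg
        have hgR : (0 : ℝ) < g := by exact_mod_cast hgpos
        rw [← Finset.sum_filter, Finset.sum_const, nsmul_eq_mul]
        have h2 : ((Ioc 0 (M - 1)).filter fun t => g ∣ 2 * t).card ≤ (2 * M) / g := by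
          rw [← Nat.Ioc_filter_dvd_card_eq_div]
          apply Finset.card_le_card_of_injOn (fun t => 2 * t)
          · intro t ht
            rw [Finset.mem_coe, mem_filter, mem_Ioc] at ht
            rw [Finset.mem_coe, mem_filter, mem_Ioc]
            refine ⟨⟨by simp only; omega, by simp only; omega⟩, ht.2⟩
          · intro t _ t' _ h
            simp only at h
            omega
        have h3 : (((2 * M) / g : ℕ) : ℝ) ≤ (2 * M : ℝ) / g := by
          have := @Nat.cast_div_le ℝ _ _ _ (2 * M) g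
          push_cast at this
          exact this
        calc (((Ioc 0 (M - 1)).filter fun t => g ∣ 2 * t).card : ℝ) * g
            ≤ ((2 * M : ℝ) / g) * g := by
              apply mul_le_mul_of_nonneg_right _ hgR.le
              exact le_trans (by exact_mod_cast h2) h3
          _ = 2 * M := by field_simp
    _ = _ := by rw [Finset.sum_const, nsmul_eq_mul]; ring

/-- `∑_j |∑_{h<M} ψ(h j²)|² ≤ M l + 2 M² √(l τ(l))`. -/
lemma sum_sq (l M : ℕ) [NeZero l] :
    ∑ j : ZMod l, ‖∑ h ∈ range M, (ZMod.stdAddChar (N := l) ((h : ZMod l) * j ^ 2) : ℂ)‖ ^ 2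
      ≤ M * l + 2 * M ^ 2 * Real.sqrt (l * (l.divisors.card : ℝ)) := by
  have hl : 0 < l := NeZero.pos l
  have h1 : ((∑ j : ZMod l,
      ‖∑ h ∈ range M, (ZMod.stdAddChar (N := l) ((h : ZMod l) * j ^ 2) : ℂ)‖ ^ 2 : ℝ) : ℂ)
      = ∑ x ∈ range M ×ˢ range M, G l ((x.1 : ZMod l) - x.2) := by
    push_cast
    have h2 : ∀ j : ZMod l,
        ((‖∑ h ∈ range M, (ZMod.stdAddChar (N := l) ((h : ZMod l) * j ^ 2) : ℂ)‖ : ℝ) : ℂ) ^ 2
        = ∑ x ∈ range M ×ˢ range M,
          (ZMod.stdAddChar (N := l) (((x.1 : ZMod l) - x.2) * j ^ 2) : ℂ) := by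
      intro j
      rw [← Complex.mul_conj', map_sum, Finset.sum_mul_sum, Finset.sum_product]
      apply Finset.sum_congr rfl
      intro h _
      apply Finset.sum_congr rfl
      intro h' _
      rw [← AddChar.map_neg_eq_conj, ← AddChar.map_add_eq_mul]
      congr 1
      ring
    simp_rw [h2]
    rw [Finset.sum_comm]
    rfl
  have h3 : (∑ j : ZMod l,
      ‖∑ h ∈ range M, (ZMod.stdAddChar (N := l) ((h : ZMod l) * j ^ 2) : ℂ)‖ ^ 2 : ℝ)
      ≤ ∑ x ∈ range M ×ˢ range M, ‖G l ((x.1 : ZMod l) - x.2)‖ := by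
    calc _ ≤ ‖((∑ j : ZMod l,
      ‖∑ h ∈ range M, (ZMod.stdAddChar (N := l) ((h : ZMod l) * j ^ 2) : ℂ)‖ ^ 2 : ℝ) : ℂ)‖ := by
            rw [Complex.norm_real]; exact le_abs_self _
      _ ≤ _ := by rw [h1]; exact norm_sum_le _ _
  refine h3.trans ?_
  -- bound each term
  have hG : ∀ x : ℕ × ℕ, ‖G l ((x.1 : ZMod l) - x.2)‖
      ≤ Real.sqrt (l * (Nat.gcd (2 * (max x.1 x.2 - min x.1 x.2)) l : ℝ)) := by
    intro x
    apply Real.le_sqrt_of_sq_le
    rcases le_total x.1 x.2 with h | h
    · have h4 := norm_G_sq l ((x.2 : ZMod l) - x.1) (2 * (x.2 - x.1)) (by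
        push_cast [Nat.cast_sub h]; ring)
      rw [max_eq_right h, min_eq_left h]
      have h5 : ‖G l ((x.1 : ZMod l) - x.2)‖ = ‖G l ((x.2 : ZMod l) - x.1)‖ := by
        have h6 : G l ((x.1 : ZMod l) - x.2) = (starRingEnd ℂ) (G l ((x.2 : ZMod l) - x.1)) := by
          unfold G
          rw [map_sum]
          apply Finset.sum_congr rfl
          intro j _
          rw [← AddChar.map_neg_eq_conj]
          congr 1
          ring
        rw [h6, RCLike.norm_conj]
      rw [h5]
      exact h4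
    · rw [max_eq_left h, min_eq_right h]
      exact norm_G_sq l ((x.1 : ZMod l) - x.2) (2 * (x.1 - x.2)) (by
        push_cast [Nat.cast_sub h]; ring)
  set w : ℕ × ℕ → ℝ := fun x => (Nat.gcd (2 * (max x.1 x.2 - min x.1 x.2)) l : ℝ) with hw
  have hw0 : ∀ x, 0 ≤ w x := fun x => by simp only [hw]; positivity
  have hsplit : ∑ x ∈ range M ×ˢ range M, Real.sqrt (l * w x)
      = ∑ x ∈ (range M ×ˢ range M).filter (fun x => x.1 = x.2), Real.sqrt (l * w x)
        + ∑ x ∈ (range M ×ˢ range M).filter (fun x => ¬ x.1 = x.2), Real.sqrt (l * w x) :=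
    (Finset.sum_filter_add_sum_filter_not _ _ _).symm
  have hdiag : ∑ x ∈ (range M ×ˢ range M).filter (fun x => x.1 = x.2), Real.sqrt (l * w x)
      ≤ M * l := by
    have h4 : ∀ x ∈ (range M ×ˢ range M).filter (fun x => x.1 = x.2), Real.sqrt (l * w x) ≤ l := by
      intro x hx
      rw [mem_filter] at hx
      have h5 : w x = l := by
        simp only [hw]
        rw [hx.2, max_self, min_self, Nat.sub_self, mul_zero, Nat.gcd_zero_left]
      rw [h5, Real.sqrt_mul_self (by positivity)]
    have h6 : ((range M ×ˢ range M).filter (fun x => x.1 = x.2)).card ≤ M := by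
      calc _ ≤ (range M).card := by
            apply Finset.card_le_card_of_injOn (fun x => x.1)
            · intro x hx
              rw [Finset.mem_coe, mem_filter, mem_product] at hx
              exact hx.1.1
            · intro x hx y hy hxy
              rw [Finset.mem_coe, mem_filter] at hx hy
              simp only at hxy
              exact Prod.ext hxy (by rw [← hx.2, ← hy.2, hxy])
        _ = M := card_range M
    calc _ ≤ ∑ x ∈ (range M ×ˢ range M).filter (fun x => x.1 = x.2), (l : ℝ) :=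
          Finset.sum_le_sum h4
      _ = (((range M ×ˢ range M).filter (fun x => x.1 = x.2)).card : ℝ) * l := by
          rw [sum_const, nsmul_eq_mul]
      _ ≤ M * l := by gcongr
  have hoff : ∑ x ∈ (range M ×ˢ range M).filter (fun x => ¬ x.1 = x.2), w x
      ≤ 4 * M ^ 2 * (l.divisors.card : ℝ) := by
    have h4 : ∀ x ∈ (range M ×ˢ range M).filter (fun x => ¬ x.1 = x.2),
        (x.1, max x.1 x.2 - min x.1 x.2) ∈ range M ×ˢ Ioc 0 (M - 1) := by
      intro x hx
      rw [mem_filter, mem_product, mem_range, mem_range] at hx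
      rw [mem_product, mem_range, mem_Ioc]
      refine ⟨hx.1.1, ?_, ?_⟩
      · rcases le_total x.1 x.2 with h | h
        · rw [max_eq_right h, min_eq_left h]; omega
        · rw [max_eq_left h, min_eq_right h]; omega
      · rcases le_total x.1 x.2 with h | h
        · rw [max_eq_right h, min_eq_left h]; omega
        · rw [max_eq_left h, min_eq_right h]; omega
    rw [← Finset.sum_fiberwise_of_maps_to h4]
    calc _ ≤ ∑ y ∈ range M ×ˢ Ioc 0 (M - 1), 2 * (Nat.gcd (2 * y.2) l : ℝ) := by
          apply Finset.sum_le_sum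
          intro y _
          have h5 : ∀ x ∈ ((range M ×ˢ range M).filter (fun x => ¬ x.1 = x.2)).filter
              (fun x => (x.1, max x.1 x.2 - min x.1 x.2) = y), w x = (Nat.gcd (2 * y.2) l : ℝ) := by
            intro x hx
            rw [mem_filter] at hx
            simp only [hw]
            rw [← hx.2]
          rw [Finset.sum_congr rfl h5, Finset.sum_const, nsmul_eq_mul]
          apply mul_le_mul_of_nonneg_right _ (by positivity)
          have h6 : (((range M ×ˢ range M).filter (fun x => ¬ x.1 = x.2)).filter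
              (fun x => (x.1, max x.1 x.2 - min x.1 x.2) = y)) ⊆ {(y.1, y.1 + y.2), (y.1, y.1 - y.2)} := by
            intro x hx
            rw [mem_filter] at hx
            obtain ⟨_, hxy⟩ := hx
            rw [mem_insert, mem_singleton]
            have e1 : x.1 = y.1 := by rw [← hxy]
            have e2 : max x.1 x.2 - min x.1 x.2 = y.2 := by rw [← hxy]
            rcases le_total x.1 x.2 with h | h
            · rw [max_eq_right h, min_eq_left h] at e2
              left
              exact Prod.ext e1 (by simp only; omega)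
            · rw [max_eq_left h, min_eq_right h] at e2
              right
              exact Prod.ext e1 (by simp only; omega)
          have h7 := (card_le_card h6).trans Finset.card_le_two
          exact_mod_cast h7
      _ = 2 * M * ∑ t ∈ Ioc 0 (M - 1), (Nat.gcd (2 * t) l : ℝ) := by
          rw [Finset.sum_product]
          simp only [Finset.sum_const, card_range, nsmul_eq_mul]
          rw [← Finset.mul_sum]
          ring
      _ ≤ 2 * M * (2 * M * (l.divisors.card : ℝ)) := by
          have := sum_gcd l M hl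
          gcongr
      _ = _ := by ring
  have hoff2 : ∑ x ∈ (range M ×ˢ range M).filter (fun x => ¬ x.1 = x.2), Real.sqrt (l * w x)
      ≤ 2 * M ^ 2 * Real.sqrt (l * (l.divisors.card : ℝ)) := by
    set O := (range M ×ˢ range M).filter (fun x => ¬ x.1 = x.2) with hO
    have hOc : (O.card : ℝ) ≤ M ^ 2 := by
      have : O.card ≤ M * M := by
        calc O.card ≤ (range M ×ˢ range M).card := card_filter_le _ _
          _ = M * M := by rw [card_product, card_range]
      calc (O.card : ℝ) ≤ ((M * M : ℕ) : ℝ) := by exact_mod_cast this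
        _ = M ^ 2 := by push_cast; ring
    have hCS : (∑ x ∈ O, Real.sqrt (l * w x)) ^ 2 ≤ (O.card : ℝ) * ∑ x ∈ O, Real.sqrt (l * w x) ^ 2 :=
      sq_sum_le_card_mul_sum_sq
    have h4 : ∑ x ∈ O, Real.sqrt (l * w x) ^ 2 = l * ∑ x ∈ O, w x := by
      rw [Finset.mul_sum]
      apply Finset.sum_congr rfl
      intro x _
      rw [Real.sq_sqrt]
      have := hw0 x
      positivity
    rw [h4] at hCS
    have h5 : (∑ x ∈ O, Real.sqrt (l * w x)) ^ 2
        ≤ (2 * M ^ 2 * Real.sqrt (l * (l.divisors.card : ℝ))) ^ 2 := by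
      rw [mul_pow, Real.sq_sqrt (by positivity)]
      calc (∑ x ∈ O, Real.sqrt (l * w x)) ^ 2 ≤ (O.card : ℝ) * (l * ∑ x ∈ O, w x) := hCS
        _ ≤ M ^ 2 * (l * (4 * M ^ 2 * (l.divisors.card : ℝ))) := by
            have h6 : 0 ≤ ∑ x ∈ O, w x := Finset.sum_nonneg fun x _ => hw0 x
            gcongr
        _ = _ := by ring
    exact le_of_sq_le_sq h5 (by positivity)
  calc ∑ x ∈ range M ×ˢ range M, ‖G l ((x.1 : ZMod l) - x.2)‖
      ≤ ∑ x ∈ range M ×ˢ range M, Real.sqrt (l * w x) := Finset.sum_le_sum fun x _ => hG x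
    _ ≤ M * l + 2 * M ^ 2 * Real.sqrt (l * (l.divisors.card : ℝ)) := by
        rw [hsplit]
        linarith

end Pool.Agent.Helper92.Avg2
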