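import Mathlib

/-! Asymptotic estimate used in the extended average theorem. -/

set_option autoImplicit false

namespace Pool.Agent.Helper92.Avg2

open Filter

lemma growth {κ ε c D C5 : ℝ} (hκ : 0 < κ) (hκ2 : κ ≤ 1 / 2) (hε : 0 < ε) (hc : 0 < c) (hD : 1 ≤ D)
    (hC5 : 0 < C5) :
    ∀ᶠ H : ℕ in atTop, ∀ Q : ℕ, 2 ≤ Q → (Q : ℝ) ≤ (H : ℝ) ^ (3 / 2 - κ) →
      2 * (C5 * ((Nat.log 2 Q + 1 : ℕ) : ℝ) *
        ((⌊(Q : ℝ) ^ 2 * (Real.log Q) ^ (1 + ε) / (c * D * H)⌋₊ : ℝ) / H +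
          (⌊(Q : ℝ) ^ 2 * (Real.log Q) ^ (1 + ε) / (c * D * H)⌋₊ : ℝ) ^ (1 / 2 + 2 * (κ / 48))))
        ≤ c * H := by
  set s : ℝ := κ / 8 with hs
  have hspos : 0 < s := by positivity
  set s' : ℝ := s / (2 * (1 + ε)) with hs'
  have hs'pos : 0 < s' := by positivity
  have hlog2 : 0 < Real.log 2 := Real.log_pos (by norm_num)
  set CJ : ℝ := 1 + 1 / (s * Real.log 2) with hCJ
  have hCJpos : 0 < CJ := by positivity
  set CL : ℝ := (1 / s') ^ (1 + ε) with hCL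
  have hCLpos : 0 < CL := by positivity
  set CK : ℝ := max 1 (CL / c) with hCK
  have hCK1 : 1 ≤ CK := le_max_left _ _
  set Ct : ℝ := 4 * C5 * CJ * CK with hCt
  have hCtpos : 0 < Ct := by positivity
  have htend : Tendsto (fun H : ℕ => Ct * (H : ℝ) ^ (-(κ / 2))) atTop (nhds 0) := by
    have h1 : Tendsto (fun H : ℕ => (H : ℝ) ^ (-(κ / 2))) atTop (nhds 0) :=
      (tendsto_rpow_neg_atTop (by positivity)).comp tendsto_natCast_atTop_atTop
    have h2 := h1.const_mul Ct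
    rw [mul_zero] at h2
    exact h2
  filter_upwards [htend.eventually (ge_mem_nhds hc), eventually_ge_atTop 1] with H hH hH1
  intro Q hQ2 hQ
  have hHR : (1 : ℝ) ≤ H := by exact_mod_cast hH1
  have hHpos : (0 : ℝ) < H := by linarith
  have hQR : (2 : ℝ) ≤ Q := by exact_mod_cast hQ2
  have hQpos : (0 : ℝ) < Q := by linarith
  have hQ32 : (Q : ℝ) ≤ (H : ℝ) ^ (3 / 2 : ℝ) :=
    hQ.trans (Real.rpow_le_rpow_of_exponent_le hHR (by linarith))
  have hlogQ : 0 < Real.log Q := Real.log_pos (by linarith)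
  -- bound for `J`
  have hJ : ((Nat.log 2 Q + 1 : ℕ) : ℝ) ≤ CJ * (H : ℝ) ^ (2 * s) := by
    have h1 : (Nat.log 2 Q : ℝ) ≤ Real.log Q / Real.log 2 := by
      rw [le_div_iff₀ hlog2]
      have h2 := Nat.pow_log_le_self 2 (show Q ≠ 0 by omega)
      have h3 : ((2 : ℝ)) ^ (Nat.log 2 Q) ≤ Q := by exact_mod_cast h2
      have h4 := Real.log_le_log (by positivity) h3
      rw [Real.log_pow] at h4
      exact h4
    have h2 : Real.log Q ≤ (Q : ℝ) ^ s / s := Real.log_le_rpow_div hQpos.le hspos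
    have h3 : (Q : ℝ) ^ s ≤ (H : ℝ) ^ (2 * s) := by
      calc (Q : ℝ) ^ s ≤ ((H : ℝ) ^ (3 / 2 : ℝ)) ^ s := Real.rpow_le_rpow hQpos.le hQ32 hspos.le
        _ = (H : ℝ) ^ (3 / 2 * s) := by rw [← Real.rpow_mul hHpos.le]
        _ ≤ _ := Real.rpow_le_rpow_of_exponent_le hHR (by nlinarith)
    have h4 : 1 ≤ (H : ℝ) ^ (2 * s) := Real.one_le_rpow hHR (by positivity)
    push_cast
    calc (Nat.log 2 Q : ℝ) + 1 ≤ ((Q : ℝ) ^ s / s) / Real.log 2 + 1 := by
          have : Real.log Q / Real.log 2 ≤ ((Q : ℝ) ^ s / s) / Real.log 2 := by gcongr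
          linarith
      _ ≤ ((H : ℝ) ^ (2 * s) / s) / Real.log 2 + (H : ℝ) ^ (2 * s) := by gcongr
      _ = _ := by rw [hCJ]; field_simp; ring
  -- bound for `K`
  set K : ℝ := (⌊(Q : ℝ) ^ 2 * (Real.log Q) ^ (1 + ε) / (c * D * H)⌋₊ : ℝ) with hK
  have hK0 : 0 ≤ K := by positivity
  have hKle : K ≤ CK * (H : ℝ) ^ (2 - 2 * κ + s) := by
    have hlogp : (Real.log Q) ^ (1 + ε) ≤ CL * (H : ℝ) ^ s := by
      have h1 : Real.log Q ≤ (Q : ℝ) ^ s' / s' := Real.log_le_rpow_div hQpos.le hs'pos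
      calc (Real.log Q) ^ (1 + ε) ≤ ((Q : ℝ) ^ s' / s') ^ (1 + ε) :=
            Real.rpow_le_rpow hlogQ.le h1 (by linarith)
        _ = CL * (Q : ℝ) ^ (s / 2) := by
            rw [Real.div_rpow (by positivity) hs'pos.le, ← Real.rpow_mul hQpos.le, hCL,
              Real.div_rpow (by norm_num) hs'pos.le, Real.one_rpow]
            have : s' * (1 + ε) = s / 2 := by rw [hs']; field_simp
            rw [this]; ring
        _ ≤ CL * (H : ℝ) ^ s := by
            have h2 : (Q : ℝ) ^ (s / 2) ≤ (H : ℝ) ^ s := by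
              calc (Q : ℝ) ^ (s / 2) ≤ ((H : ℝ) ^ (3 / 2 : ℝ)) ^ (s / 2) :=
                    Real.rpow_le_rpow hQpos.le hQ32 (by positivity)
                _ = (H : ℝ) ^ (3 / 2 * (s / 2)) := by rw [← Real.rpow_mul hHpos.le]
                _ ≤ _ := Real.rpow_le_rpow_of_exponent_le hHR (by nlinarith)
            gcongr
    have hQsq : (Q : ℝ) ^ 2 ≤ (H : ℝ) ^ (3 - 2 * κ) := by
      calc (Q : ℝ) ^ 2 ≤ ((H : ℝ) ^ (3 / 2 - κ)) ^ 2 := by gcongr
        _ = (H : ℝ) ^ (3 - 2 * κ) := by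
            rw [← Real.rpow_natCast, ← Real.rpow_mul hHpos.le]
            congr 1; push_cast; ring
    calc K ≤ (Q : ℝ) ^ 2 * (Real.log Q) ^ (1 + ε) / (c * D * H) := by
          apply Nat.floor_le
          have := Real.rpow_nonneg hlogQ.le (1 + ε)
          positivity
      _ ≤ ((H : ℝ) ^ (3 - 2 * κ) * (CL * (H : ℝ) ^ s)) / (c * 1 * H) := by
          have := Real.rpow_nonneg hlogQ.le (1 + ε)
          gcongr
      _ = (CL / c) * ((H : ℝ) ^ (3 - 2 * κ) * (H : ℝ) ^ s * (H : ℝ) ^ (-1 : ℝ)) := by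
          rw [Real.rpow_neg_one]; field_simp
      _ = (CL / c) * (H : ℝ) ^ (2 - 2 * κ + s) := by
          rw [← Real.rpow_add hHpos, ← Real.rpow_add hHpos]
          congr 2; ring
      _ ≤ _ := by
          have : CL / c ≤ CK := le_max_right _ _
          gcongr
  -- first term
  have h1 : K / H ≤ CK * (H : ℝ) ^ (1 - κ + s) := by
    calc K / H ≤ CK * (H : ℝ) ^ (2 - 2 * κ + s) / H := by gcongr
      _ = CK * ((H : ℝ) ^ (2 - 2 * κ + s) * (H : ℝ) ^ (-1 : ℝ)) := by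
          rw [Real.rpow_neg_one]; field_simp
      _ = CK * (H : ℝ) ^ (1 - 2 * κ + s) := by
          rw [← Real.rpow_add hHpos]; congr 2; ring
      _ ≤ _ := by
          have := Real.rpow_le_rpow_of_exponent_le hHR (by linarith : 1 - 2 * κ + s ≤ 1 - κ + s)
          gcongr
  have h2 : K ^ (1 / 2 + 2 * (κ / 48)) ≤ CK * (H : ℝ) ^ (1 - κ + 2 * s) := by
    have he1 : 1 / 2 + 2 * (κ / 48) ≤ 1 := by linarith
    calc K ^ (1 / 2 + 2 * (κ / 48)) ≤ (CK * (H : ℝ) ^ (2 - 2 * κ + s)) ^ (1 / 2 + 2 * (κ / 48)) :=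
          Real.rpow_le_rpow hK0 hKle (by positivity)
      _ = CK ^ (1 / 2 + 2 * (κ / 48)) * (H : ℝ) ^ ((2 - 2 * κ + s) * (1 / 2 + 2 * (κ / 48))) := by
          rw [Real.mul_rpow (by positivity) (by positivity), ← Real.rpow_mul hHpos.le]
      _ ≤ CK * (H : ℝ) ^ (1 - κ + 2 * s) := by
          have e1 : CK ^ (1 / 2 + 2 * (κ / 48)) ≤ CK := by
            calc CK ^ (1 / 2 + 2 * (κ / 48)) ≤ CK ^ (1 : ℝ) :=
                  Real.rpow_le_rpow_of_exponent_le hCK1 he1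
              _ = CK := Real.rpow_one _
          have e2 : (2 - 2 * κ + s) * (1 / 2 + 2 * (κ / 48)) ≤ 1 - κ + 2 * s := by
            rw [hs]; nlinarith
          have e3 := Real.rpow_le_rpow_of_exponent_le hHR e2
          gcongr
  have h3 : K / H + K ^ (1 / 2 + 2 * (κ / 48)) ≤ 2 * CK * (H : ℝ) ^ (1 - κ + 2 * s) := by
    have e1 := Real.rpow_le_rpow_of_exponent_le hHR (by linarith : 1 - κ + s ≤ 1 - κ + 2 * s)
    have e2 : K / H ≤ CK * (H : ℝ) ^ (1 - κ + 2 * s) := h1.trans (by gcongr)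
    linarith
  calc 2 * (C5 * ((Nat.log 2 Q + 1 : ℕ) : ℝ) * (K / H + K ^ (1 / 2 + 2 * (κ / 48))))
      ≤ 2 * (C5 * (CJ * (H : ℝ) ^ (2 * s)) * (2 * CK * (H : ℝ) ^ (1 - κ + 2 * s))) := by
        gcongr
    _ = Ct * ((H : ℝ) ^ (2 * s) * (H : ℝ) ^ (1 - κ + 2 * s)) := by rw [hCt]; ring
    _ = Ct * (H : ℝ) ^ (1 - κ + 4 * s) := by
        rw [← Real.rpow_add hHpos]; congr 2; ring
    _ = (Ct * (H : ℝ) ^ (-(κ / 2))) * H := by
        have : (H : ℝ) ^ (1 - κ + 4 * s) = (H : ℝ) ^ (-(κ / 2)) * H := by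
          nth_rewrite 3 [← Real.rpow_one (H : ℝ)]
          rw [← Real.rpow_add hHpos]
          congr 1
          rw [hs]; ring
        rw [this]; ring
    _ ≤ c * H := by gcongr

end Pool.Agent.Helper92.Avg2
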