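import Mathlib
import Pool.Agent.Helper92.Avg2.Gauss

/-! Counting integers `j` with `j² / l` close to an integer; spacing of reduced fractions. -/

set_option autoImplicit false

namespace Pool.Agent.Helper92.Avg2

open Finset Pool.Agent.Helper92.Field

lemma addChar_eq_e (l : ℕ) [NeZero l] (n : ℤ) :
    (ZMod.stdAddChar (N := l) (n : ZMod l) : ℂ) = e ((n : ℝ) / l) := by
  rw [ZMod.stdAddChar_coe]
  unfold e
  congr 1
  push_cast
  ring

lemma card_near_sq (l B M : ℕ) [NeZero l] {η : ℝ} (hM : 6 * M * η ≤ 1)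
    (S : Finset ℤ) (hS : ∀ j ∈ S, |j| ≤ (B * l : ℤ) ∧ ∃ n : ℤ, |(j : ℝ) ^ 2 / l - n| ≤ η) :
    (S.card : ℝ) * M ^ 2 ≤ 4 * (2 * B + 1) *
      (M * l + 2 * M ^ 2 * Real.sqrt (l * (l.divisors.card : ℝ))) := by
  classical
  have hl : 0 < l := NeZero.pos l
  have hlZ : (0 : ℤ) < l := by exact_mod_cast hl
  set F : ZMod l → ℝ := fun r =>
    ‖∑ h ∈ range M, (ZMod.stdAddChar (N := l) ((h : ZMod l) * r ^ 2) : ℂ)‖ ^ 2 with hF
  have h1 : ∀ j ∈ S, ((M : ℝ) / 2) ^ 2 ≤ F ((j : ℤ) : ZMod l) := by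
    intro j hj
    obtain ⟨_, n, hn⟩ := hS j hj
    simp only [hF]
    apply pow_le_pow_left₀ (by positivity)
    have hterm : ∀ h ∈ range M, (1 / 2 : ℝ)
        ≤ (ZMod.stdAddChar (N := l) ((h : ZMod l) * ((j : ℤ) : ZMod l) ^ 2) : ℂ).re := by
      intro h hh
      rw [mem_range] at hh
      have e1 : (ZMod.stdAddChar (N := l) ((h : ZMod l) * ((j : ℤ) : ZMod l) ^ 2) : ℂ)
          = e ((h : ℝ) * ((j : ℝ) ^ 2 / l - n)) := by
        have e2 : (h : ZMod l) * ((j : ℤ) : ZMod l) ^ 2 = (((h : ℤ) * j ^ 2 : ℤ) : ZMod l) := by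
          push_cast; ring
        rw [e2, addChar_eq_e]
        have e3 : (((h : ℤ) * j ^ 2 : ℤ) : ℝ) / l
            = (h : ℝ) * ((j : ℝ) ^ 2 / l - n) + (((h : ℤ) * n : ℤ) : ℝ) := by
          push_cast; ring
        rw [e3, e_add, e_int, mul_one]
      rw [e1]
      apply re_e_ge
      rw [abs_mul, Nat.abs_cast]
      have hhM : (h : ℝ) ≤ M := by exact_mod_cast hh.le
      have hη : 0 ≤ η := (abs_nonneg _).trans hn
      calc (h : ℝ) * |(j : ℝ) ^ 2 / l - n| ≤ M * η := by gcongr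
        _ ≤ 1 / 6 := by linarith
    calc (M : ℝ) / 2 = ∑ h ∈ range M, (1 / 2 : ℝ) := by
          rw [sum_const, card_range, nsmul_eq_mul]; ring
      _ ≤ ∑ h ∈ range M,
          (ZMod.stdAddChar (N := l) ((h : ZMod l) * ((j : ℤ) : ZMod l) ^ 2) : ℂ).re :=
          Finset.sum_le_sum hterm
      _ = (∑ h ∈ range M,
          (ZMod.stdAddChar (N := l) ((h : ZMod l) * ((j : ℤ) : ZMod l) ^ 2) : ℂ)).re := by
          rw [Complex.re_sum]
      _ ≤ _ := (le_abs_self _).trans (Complex.abs_re_le_norm _)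
  have hfib : ∀ r : ZMod l, (S.filter fun j : ℤ => (j : ZMod l) = r).card ≤ 2 * B + 1 := by
    intro r
    calc (S.filter fun j : ℤ => (j : ZMod l) = r).card ≤ (Icc (0 : ℤ) (2 * B)).card := by
          apply Finset.card_le_card_of_injOn (fun j : ℤ => (j + B * l) / (l : ℤ))
          · intro j hj
            rw [Finset.mem_coe, mem_filter] at hj
            have h2 := (hS j hj.1).1
            rw [abs_le] at h2
            rw [Finset.mem_coe, mem_Icc]
            refine ⟨Int.ediv_nonneg (by linarith) hlZ.le, ?_⟩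
            simp only
            rw [← Int.lt_add_one_iff]
            apply Int.ediv_lt_of_lt_mul hlZ
            nlinarith
          · intro j hj j' hj' h
            rw [Finset.mem_coe, mem_filter] at hj hj'
            simp only at h
            have h3 : ((j : ℤ) : ZMod l) = ((j' : ℤ) : ZMod l) := by rw [hj.2, hj'.2]
            rw [ZMod.intCast_eq_intCast_iff_dvd_sub] at h3
            obtain ⟨k, hk⟩ := h3
            have h4 : j' + B * l = (j + B * l) + l * k := by linarith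
            rw [h4, Int.add_mul_ediv_left _ _ hlZ.ne'] at h
            have h5 : k = 0 := by linarith
            rw [h5] at hk
            linarith
      _ = 2 * B + 1 := by rw [Int.card_Icc]; omega
  have h2 : (S.card : ℝ) * ((M : ℝ) / 2) ^ 2 ≤ (2 * B + 1) * ∑ r : ZMod l, F r := by
    calc (S.card : ℝ) * ((M : ℝ) / 2) ^ 2 = ∑ j ∈ S, ((M : ℝ) / 2) ^ 2 := by
          rw [sum_const, nsmul_eq_mul]
      _ ≤ ∑ j ∈ S, F ((j : ℤ) : ZMod l) := Finset.sum_le_sum h1
      _ = ∑ r : ZMod l, ∑ j ∈ S.filter (fun j : ℤ => (j : ZMod l) = r), F ((j : ℤ) : ZMod l) := by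
          rw [Finset.sum_fiberwise]
      _ ≤ ∑ r : ZMod l, (2 * B + 1) * F r := by
          apply Finset.sum_le_sum
          intro r _
          have h3 : ∀ j ∈ S.filter (fun j : ℤ => (j : ZMod l) = r), F ((j : ℤ) : ZMod l) = F r := by
            intro j hj
            rw [mem_filter] at hj
            rw [hj.2]
          rw [Finset.sum_congr rfl h3, sum_const, nsmul_eq_mul]
          apply mul_le_mul_of_nonneg_right _ (by simp only [hF]; positivity)
          have := hfib r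
          exact_mod_cast this
      _ = _ := by rw [Finset.mul_sum]
  have h3 := sum_sq l M
  have h4 : (2 * (B : ℝ) + 1) * ∑ r : ZMod l, F r ≤ (2 * (B : ℝ) + 1) *
      (M * l + 2 * M ^ 2 * Real.sqrt (l * (l.divisors.card : ℝ))) := by
    apply mul_le_mul_of_nonneg_left h3 (by positivity)
  nlinarith [h2, h4]

/-- Reduced fractions with denominators below `N` in an interval of length `lam`. -/
lemma card_fractions {N : ℕ} {lam α : ℝ} (hlam : 0 ≤ lam) (F : Finset (ℤ × ℕ))
    (hF : ∀ x ∈ F, 0 < x.2 ∧ x.2 ≤ N ∧ IsCoprime x.1 (x.2 : ℤ) ∧ α ≤ (x.1 : ℝ) / x.2 ∧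
      (x.1 : ℝ) / x.2 ≤ α + lam) :
    (F.card : ℝ) ≤ 1 + lam * N ^ 2 := by
  have h1 : F.card ≤ (range (⌊lam * N ^ 2⌋₊ + 1)).card := by
    apply Finset.card_le_card_of_injOn (fun x => ⌊((x.1 : ℝ) / x.2 - α) * N ^ 2⌋₊)
    · intro x hx
      rw [Finset.mem_coe] at hx
      obtain ⟨_, _, _, h4, h5⟩ := hF x hx
      rw [Finset.mem_coe, mem_range, Nat.lt_succ_iff]
      apply Nat.floor_le_floor
      apply mul_le_mul_of_nonneg_right _ (by positivity)
      linarith
    · intro x hx y hy hxy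
      rw [Finset.mem_coe] at hx hy
      obtain ⟨hx1, hx2, hx3, hx4, hx5⟩ := hF x hx
      obtain ⟨hy1, hy2, hy3, hy4, hy5⟩ := hF y hy
      simp only at hxy
      have hxR : (0 : ℝ) < x.2 := by exact_mod_cast hx1
      have hyR : (0 : ℝ) < y.2 := by exact_mod_cast hy1
      have hNpos : (0 : ℝ) < N := by
        have : 0 < N := lt_of_lt_of_le hx1 hx2
        exact_mod_cast this
      -- the difference of the fractions is less than `1/N²`
      have hdiff : |(x.1 : ℝ) / x.2 - (y.1 : ℝ) / y.2| * N ^ 2 < 1 := by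
        have e1 := Nat.floor_le (a := ((x.1 : ℝ) / x.2 - α) * N ^ 2)
          (mul_nonneg (by linarith) (by positivity))
        have e2 := Nat.lt_floor_add_one (((x.1 : ℝ) / x.2 - α) * N ^ 2)
        have e3 := Nat.floor_le (a := ((y.1 : ℝ) / y.2 - α) * N ^ 2)
          (mul_nonneg (by linarith) (by positivity))
        have e4 := Nat.lt_floor_add_one (((y.1 : ℝ) / y.2 - α) * N ^ 2)
        rw [hxy] at e1 e2
        have e5 : |(((x.1 : ℝ) / x.2 - α) * N ^ 2) - (((y.1 : ℝ) / y.2 - α) * N ^ 2)| < 1 := by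
          rw [abs_lt]; constructor <;> linarith
        have e6 : (((x.1 : ℝ) / x.2 - α) * N ^ 2) - (((y.1 : ℝ) / y.2 - α) * N ^ 2)
            = ((x.1 : ℝ) / x.2 - (y.1 : ℝ) / y.2) * N ^ 2 := by ring
        rw [e6, abs_mul, abs_of_nonneg (by positivity : (0 : ℝ) ≤ (N : ℝ) ^ 2)] at e5
        exact e5
      have hzero : x.1 * y.2 - y.1 * x.2 = 0 := by
        by_contra hne
        have h6 : (1 : ℝ) ≤ |((x.1 * y.2 - y.1 * x.2 : ℤ) : ℝ)| := by
          exact_mod_cast Int.one_le_abs hne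
        have h7 : |((x.1 * y.2 - y.1 * x.2 : ℤ) : ℝ)|
            = |(x.1 : ℝ) / x.2 - (y.1 : ℝ) / y.2| * (x.2 * y.2) := by
          have h8 : ((x.1 * y.2 - y.1 * x.2 : ℤ) : ℝ)
              = ((x.1 : ℝ) / x.2 - (y.1 : ℝ) / y.2) * (x.2 * y.2) := by
            push_cast; field_simp
          rw [h8, abs_mul, abs_of_pos (by positivity : (0 : ℝ) < x.2 * y.2)]
        rw [h7] at h6
        have h9 : (x.2 : ℝ) * y.2 ≤ N ^ 2 := by
          have a1 : (x.2 : ℝ) ≤ N := by exact_mod_cast hx2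
          have a2 : (y.2 : ℝ) ≤ N := by exact_mod_cast hy2
          calc (x.2 : ℝ) * y.2 ≤ N * N := by gcongr
            _ = _ := by ring
        have h10 : |(x.1 : ℝ) / x.2 - (y.1 : ℝ) / y.2| * (x.2 * y.2)
            ≤ |(x.1 : ℝ) / x.2 - (y.1 : ℝ) / y.2| * N ^ 2 :=
          mul_le_mul_of_nonneg_left h9 (abs_nonneg _)
        linarith
      -- coprimality gives equality
      have hEq : x.1 * y.2 = y.1 * x.2 := by linarith
      have d1 : (x.2 : ℤ) ∣ y.2 := by
        have : (x.2 : ℤ) ∣ x.1 * y.2 := ⟨y.1, by rw [hEq]; ring⟩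
        exact hx3.symm.dvd_of_dvd_mul_left this
      have d2 : (y.2 : ℤ) ∣ x.2 := by
        have : (y.2 : ℤ) ∣ y.1 * x.2 := ⟨x.1, by rw [← hEq]; ring⟩
        exact hy3.symm.dvd_of_dvd_mul_left this
      have h22 : x.2 = y.2 := Nat.dvd_antisymm (by exact_mod_cast d1) (by exact_mod_cast d2)
      have h11 : x.1 = y.1 := by
        rw [h22] at hEq
        have : (y.2 : ℤ) ≠ 0 := by exact_mod_cast hy1.ne'
        exact mul_right_cancel₀ this hEq
      exact Prod.ext h11 h22
  rw [card_range] at h1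
  have h2 : ((⌊lam * N ^ 2⌋₊ + 1 : ℕ) : ℝ) ≤ 1 + lam * N ^ 2 := by
    push_cast
    have := Nat.floor_le (a := lam * (N : ℝ) ^ 2) (by positivity)
    linarith
  exact le_trans (by exact_mod_cast h1) h2

/-- Weighted sum over reduced fractions in a short interval. -/
lemma sum_fractions {J : ℕ} {lam α W1 W2 : ℝ} (hlam : 0 ≤ lam) (hW1 : 0 ≤ W1) (hW2 : 0 ≤ W2)
    (F : Finset (ℤ × ℕ)) (w : ℤ × ℕ → ℝ)
    (hF : ∀ x ∈ F, 0 < x.2 ∧ x.2 < 2 ^ J ∧ IsCoprime x.1 (x.2 : ℤ) ∧ α ≤ (x.1 : ℝ) / x.2 ∧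
      (x.1 : ℝ) / x.2 ≤ α + lam)
    (hw : ∀ x ∈ F, w x ≤ W1 / (x.2 : ℝ) ^ 2 ∧ w x ≤ W2) :
    ∑ x ∈ F, w x ≤ J * (W2 + 4 * lam * W1) := by
  have hmaps : ∀ x ∈ F, Nat.log 2 x.2 ∈ range J := by
    intro x hx
    obtain ⟨h1, h2, _⟩ := hF x hx
    rw [mem_range]
    exact Nat.log_lt_of_lt_pow h1.ne' h2
  rw [← Finset.sum_fiberwise_of_maps_to hmaps]
  calc _ ≤ ∑ i ∈ range J, (W2 + 4 * lam * W1) := by
        apply Finset.sum_le_sum
        intro i _
        set Fi := F.filter (fun x => Nat.log 2 x.2 = i) with hFi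
        have hcard : (Fi.card : ℝ) ≤ 1 + lam * ((2 ^ (i + 1) : ℕ) : ℝ) ^ 2 := by
          apply card_fractions hlam
          intro x hx
          rw [hFi, mem_filter] at hx
          obtain ⟨h1, h2, h3, h4, h5⟩ := hF x hx.1
          refine ⟨h1, ?_, h3, h4, h5⟩
          have h6 := Nat.lt_pow_succ_log_self (b := 2) (by norm_num) x.2
          rw [hx.2] at h6
          exact h6.le
        have h4i : ((2 ^ (i + 1) : ℕ) : ℝ) ^ 2 = 4 * 4 ^ i := by
          push_cast
          rw [← pow_mul, mul_comm (i + 1) 2, pow_mul]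
          norm_num
          rw [pow_succ]
          ring
        rw [h4i] at hcard
        have hwle : ∀ x ∈ Fi, w x ≤ min (W1 / 4 ^ i) W2 := by
          intro x hx
          rw [hFi, mem_filter] at hx
          obtain ⟨h1, h2⟩ := hw x hx.1
          apply le_min _ h2
          refine h1.trans ?_
          have h6 := Nat.pow_log_le_self 2 (hF x hx.1).1.ne'
          rw [hx.2] at h6
          have h7 : ((4 : ℝ)) ^ i ≤ (x.2 : ℝ) ^ 2 := by
            have h8 : ((2 : ℝ)) ^ i ≤ x.2 := by exact_mod_cast h6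
            calc (4 : ℝ) ^ i = (2 ^ i) ^ 2 := by
                  rw [← pow_mul, mul_comm, pow_mul]; norm_num
              _ ≤ _ := by gcongr
          apply div_le_div_of_nonneg_left hW1 (by positivity) h7
        calc ∑ x ∈ Fi, w x ≤ ∑ x ∈ Fi, min (W1 / 4 ^ i) W2 := Finset.sum_le_sum hwle
          _ = (Fi.card : ℝ) * min (W1 / 4 ^ i) W2 := by rw [sum_const, nsmul_eq_mul]
          _ ≤ (1 + lam * (4 * 4 ^ i)) * min (W1 / 4 ^ i) W2 := by
              apply mul_le_mul_of_nonneg_right hcard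
              exact le_min (by positivity) hW2
          _ = min (W1 / 4 ^ i) W2 + lam * (4 * 4 ^ i) * min (W1 / 4 ^ i) W2 := by ring
          _ ≤ W2 + lam * (4 * 4 ^ i) * (W1 / 4 ^ i) := by
              have h1 := min_le_right (W1 / 4 ^ i) W2
              have h2 := min_le_left (W1 / 4 ^ i) W2
              have h3 : lam * (4 * 4 ^ i) * min (W1 / 4 ^ i) W2
                  ≤ lam * (4 * 4 ^ i) * (W1 / 4 ^ i) := by
                apply mul_le_mul_of_nonneg_left h2 (by positivity)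
              linarith
          _ = W2 + 4 * lam * W1 := by field_simp
    _ = _ := by rw [sum_const, card_range, nsmul_eq_mul]

end Pool.Agent.Helper92.Avg2
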