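import Mathlib
import Pool.Agent.Helper92.Avg2.Near
import Pool.Agent.Helper92.Avg2.Tail

/-! The secondary sum over fractions and dual multiples. -/

set_option autoImplicit false

namespace Pool.Agent.Helper92.Avg2

open Finset Pool.Agent.Helper92.Field

open Classical in
/-- Integers `j` with `|j| ≤ B l` and `j²/l` within `η` of an integer. -/
noncomputable def nearSq (B l : ℕ) (η : ℝ) : Finset ℤ :=
  (Icc (-(B * l : ℤ)) (B * l)).filter fun j => ∃ n : ℤ, |(j : ℝ) ^ 2 / l - n| ≤ η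

lemma card_nearSq {B l M : ℕ} (hl : 0 < l) (hMpos : 0 < M) {η : ℝ} (hM : 6 * M * η ≤ 1) :
    ((nearSq B l η).card : ℝ) ≤ 4 * (2 * B + 1) *
      (l / M + 2 * Real.sqrt (l * (l.divisors.card : ℝ))) := by
  classical
  have : NeZero l := ⟨hl.ne'⟩
  have h1 := card_near_sq l B M hM (nearSq B l η) (by
    intro j hj
    unfold nearSq at hj
    rw [mem_filter, mem_Icc] at hj
    exact ⟨abs_le.mpr hj.1, hj.2⟩)
  have hMR : (0 : ℝ) < M := by exact_mod_cast hMpos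
  have h2 : 4 * (2 * (B : ℝ) + 1) * (M * l + 2 * M ^ 2 * Real.sqrt (l * (l.divisors.card : ℝ)))
      = (4 * (2 * B + 1) * (l / M + 2 * Real.sqrt (l * (l.divisors.card : ℝ)))) * (M : ℝ) ^ 2 := by
    field_simp
  rw [h2] at h1
  exact le_of_mul_le_mul_right h1 (by positivity)

/-- The coprime pairs `(p,q)` with `H < q ≤ Q` and `|p| ≤ B q`. -/
noncomputable def fracs (B H Q : ℕ) : Finset (ℤ × ℕ) :=
  ((Ioc H Q).sigma fun q => (Icc (-(B * q : ℤ)) (B * q)).filter fun p => IsCoprime p (q : ℤ)).map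
    ⟨fun x => (x.2, x.1), by
      rintro ⟨q, p⟩ ⟨q', p'⟩ h
      simp only [Prod.mk.injEq] at h
      obtain ⟨rfl, rfl⟩ := h
      rfl⟩

lemma mem_fracs {B H Q : ℕ} {x : ℤ × ℕ} : x ∈ fracs B H Q ↔
    (H < x.2 ∧ x.2 ≤ Q) ∧ |x.1| ≤ (B * x.2 : ℤ) ∧ IsCoprime x.1 (x.2 : ℤ) := by
  unfold fracs
  rw [Finset.mem_map]
  constructor
  · rintro ⟨⟨q, p⟩, h, rfl⟩
    rw [mem_sigma, mem_Ioc, mem_filter, mem_Icc] at h
    exact ⟨h.1, abs_le.mpr h.2.1, h.2.2⟩
  · rintro ⟨h1, h2, h3⟩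
    refine ⟨⟨x.2, x.1⟩, ?_, rfl⟩
    rw [mem_sigma, mem_Ioc, mem_filter, mem_Icc]
    exact ⟨h1, abs_le.mp h2, h3⟩

lemma sum_fracs (B H Q : ℕ) (f : ℤ × ℕ → ℝ) : ∑ x ∈ fracs B H Q, f x
    = ∑ q ∈ Ioc H Q, ∑ p ∈ (Icc (-(B * q : ℤ)) (B * q)).filter (fun p => IsCoprime p (q : ℤ)),
      f (p, q) := by
  unfold fracs
  rw [Finset.sum_map, Finset.sum_sigma]
  rfl

lemma abs_frac_le {B H Q : ℕ} {x : ℤ × ℕ} (hx : x ∈ fracs B H Q) : |(x.1 : ℝ) / x.2| ≤ B := by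
  rw [mem_fracs] at hx
  obtain ⟨⟨h1, _⟩, h2, _⟩ := hx
  have hq : (0 : ℝ) < x.2 := by
    have : 0 < x.2 := by omega
    exact_mod_cast this
  rw [abs_div, abs_of_pos hq, div_le_iff₀ hq]
  exact_mod_cast h2

/-- For fixed `l`, the weighted sum over fractions with `l` in the dual set. -/
lemma sum_fixed_l {B H Q J l : ℕ} (hH : 0 < H) (hl : 0 < l) (hJ : Q < 2 ^ J) {c0 : ℝ}
    (hc0 : 0 ≤ c0) (δ : ℕ → ℝ) (hδ : ∀ q, H < q → q ≤ Q → δ q ≤ c0 * H / (q : ℝ) ^ 2)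
    (F : Finset (ℤ × ℕ)) (hF : ∀ x ∈ F, x ∈ fracs B H Q ∧ 24 * δ x.2 * l ≤ 1 ∧
      ∀ i : Fin 2, ∃ s : ℤ, |(l : ℝ) * vec2 ((x.1 : ℝ) / x.2) i - s| ≤ 1 / (12 * H)) :
    ∑ x ∈ F, δ x.2 ≤ ((nearSq (B + 1) l ((B + 1) / (6 * H))).card : ℝ) * (J * ((1 + c0) / l)) := by
  classical
  have hHR : (1 : ℝ) ≤ H := by exact_mod_cast hH
  have hlR : (1 : ℝ) ≤ l := by exact_mod_cast hl
  set τ : ℝ := 1 / (12 * H) with hτ
  have hτpos : 0 < τ := by positivity
  have hτ1 : τ ≤ 1 := by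
    rw [hτ, div_le_one (by positivity)]; linarith
  have hround : ∀ x ∈ F, |(l : ℝ) * ((x.1 : ℝ) / x.2) - round ((l : ℝ) * ((x.1 : ℝ) / x.2))| ≤ τ := by
    intro x hx
    obtain ⟨_, _, h3⟩ := hF x hx
    obtain ⟨s, hs⟩ := h3 0
    refine (round_le _ s).trans ?_
    simpa [vec2] using hs
  have hmaps : ∀ x ∈ F, round ((l : ℝ) * ((x.1 : ℝ) / x.2))
      ∈ nearSq (B + 1) l ((B + 1) / (6 * H)) := by
    intro x hx
    have hr := hround x hx
    obtain ⟨h1, _, h3⟩ := hF x hx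
    have hθ := abs_frac_le h1
    set θ : ℝ := (x.1 : ℝ) / x.2 with hθdef
    set j : ℤ := round ((l : ℝ) * θ) with hj
    unfold nearSq
    rw [mem_filter, mem_Icc, ← abs_le]
    refine ⟨?_, ?_⟩
    · have h4 : |(j : ℝ)| ≤ ((B + 1 : ℕ) : ℝ) * l := by
        have h5 : |(j : ℝ)| ≤ |(l : ℝ) * θ| + τ := by
          have h6 : (j : ℝ) = (l : ℝ) * θ - ((l : ℝ) * θ - j) := by ring
          rw [h6]
          exact (abs_sub _ _).trans (by gcongr)
        rw [abs_mul, Nat.abs_cast] at h5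
        have h7 : (l : ℝ) * |θ| ≤ l * B := by gcongr
        push_cast
        nlinarith
      exact_mod_cast h4
    · obtain ⟨s, hs⟩ := h3 1
      refine ⟨s, ?_⟩
      have hs' : |(l : ℝ) * θ ^ 2 - s| ≤ τ := by simpa [vec2] using hs
      set t : ℝ := (j : ℝ) - l * θ with ht
      have ht' : |t| ≤ τ := by rw [ht, abs_sub_comm]; exact hr
      have h4 : (j : ℝ) ^ 2 / l - s = ((l : ℝ) * θ ^ 2 - s) + (2 * θ * t + t ^ 2 / l) := by
        have : (j : ℝ) = l * θ + t := by rw [ht]; ring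
        rw [this]
        field_simp
        ring
      rw [h4]
      have h5 : |2 * θ * t| ≤ 2 * B * τ := by
        rw [abs_mul, abs_mul, abs_of_pos (by norm_num : (0 : ℝ) < 2)]
        gcongr
      have h6 : |t ^ 2 / l| ≤ τ := by
        rw [abs_div, abs_of_pos (by linarith : (0 : ℝ) < l), abs_pow, div_le_iff₀ (by linarith)]
        calc |t| ^ 2 ≤ τ ^ 2 := by gcongr
          _ ≤ τ * 1 := by rw [sq]; gcongr
          _ ≤ τ * l := by gcongr
      have h7 : ((B : ℝ) + 1) / (6 * H) = τ + (2 * B * τ + τ) := by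
        rw [hτ]; field_simp; ring
      rw [h7]
      calc |((l : ℝ) * θ ^ 2 - s) + (2 * θ * t + t ^ 2 / l)|
          ≤ |(l : ℝ) * θ ^ 2 - s| + |2 * θ * t + t ^ 2 / l| := abs_add_le _ _
        _ ≤ |(l : ℝ) * θ ^ 2 - s| + (|2 * θ * t| + |t ^ 2 / l|) := by
            gcongr; exact abs_add_le _ _
        _ ≤ _ := by linarith
  rw [← Finset.sum_fiberwise_of_maps_to hmaps]
  calc _ ≤ ∑ j ∈ nearSq (B + 1) l ((B + 1) / (6 * H)), (J : ℝ) * ((1 + c0) / l) := by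
        apply Finset.sum_le_sum
        intro j _
        have h1 := sum_fractions (J := J) (lam := 2 * τ / l) (α := (j : ℝ) / l - τ / l)
          (W1 := c0 * H) (W2 := 1 / (24 * l)) (by positivity) (by positivity) (by positivity)
          (F.filter fun x => round ((l : ℝ) * ((x.1 : ℝ) / x.2)) = j) (fun x => δ x.2) ?_ ?_
        · refine h1.trans ?_
          apply mul_le_mul_of_nonneg_left _ (by positivity)
          have h2 : 1 / (24 * (l : ℝ)) + 4 * (2 * τ / l) * (c0 * H)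
              = (1 / 24 + (2 / 3) * c0) / l := by
            rw [hτ]; field_simp; ring
          rw [h2]
          apply div_le_div_of_nonneg_right _ (by linarith)
          linarith
        · intro x hx
          rw [mem_filter] at hx
          obtain ⟨hxF, hxj⟩ := hx
          have h2 := hround x hxF
          rw [hxj] at h2
          obtain ⟨h3, _, _⟩ := hF x hxF
          rw [mem_fracs] at h3
          obtain ⟨⟨h4, h5⟩, _, h6⟩ := h3
          rw [abs_le] at h2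
          have h7 : (j : ℝ) / l - τ / l ≤ (x.1 : ℝ) / x.2 := by
            rw [← sub_div, div_le_iff₀ (by linarith)]
            linarith
          have h8 : (x.1 : ℝ) / x.2 ≤ (j : ℝ) / l - τ / l + 2 * τ / l := by
            have h9 : (j : ℝ) / l - τ / l + 2 * τ / l = (j + τ) / l := by ring
            rw [h9, le_div_iff₀ (by linarith)]
            linarith
          exact ⟨by omega, by omega, h6, h7, h8⟩
        · intro x hx
          rw [mem_filter] at hx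
          obtain ⟨hxF, _⟩ := hx
          obtain ⟨h3, h4, _⟩ := hF x hxF
          rw [mem_fracs] at h3
          refine ⟨hδ x.2 h3.1.1 h3.1.2, ?_⟩
          rw [le_div_iff₀ (by positivity)]
          linarith
    _ = _ := by rw [sum_const, nsmul_eq_mul]

/-- The secondary sum. -/
theorem second_sum (B : ℕ) {c0 ε' : ℝ} (hc0 : 0 ≤ c0) (hε' : 0 < ε') :
    ∃ C : ℝ, 0 < C ∧ ∀ (H Q J Kmax : ℕ) (δ : ℕ → ℝ), B + 1 ≤ H → Q < 2 ^ J →
      (∀ q, H < q → q ≤ Q → 0 < δ q ∧ δ q ≤ c0 * H / (q : ℝ) ^ 2 ∧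
        ∀ l : ℕ, 24 * δ q * l ≤ 1 → l ≤ Kmax) →
      ∑ x ∈ fracs B H Q, δ x.2 *
        ((posSet (vec2 ((x.1 : ℝ) / x.2)) (Kof (δ x.2)) (1 / (12 * H))).card : ℝ)
      ≤ C * J * ((Kmax : ℝ) / H + (Kmax : ℝ) ^ (1 / 2 + 2 * ε')) := by
  classical
  obtain ⟨Cd, hCd, hdiv⟩ := divisor_bound (ε := 2 * ε') (by positivity)
  have hsumm : Summable fun j : ℕ => (j : ℝ) ^ (-(1 + ε')) := by
    rw [Real.summable_nat_rpow]; linarith
  set Z := ∑' j : ℕ, (j : ℝ) ^ (-(1 + ε')) with hZ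
  have hZ0 : 0 ≤ Z := tsum_nonneg fun j => by positivity
  set C1 : ℝ := 4 * (2 * ((B + 1 : ℕ) : ℝ) + 1) * (1 + c0) with hC1
  have hC1pos : 0 < C1 := by positivity
  refine ⟨C1 * (2 * (B + 1) + 2 * Real.sqrt Cd * (Z + 1)), by positivity, ?_⟩
  intro H Q J Kmax δ hHB hJ hδ
  have hH : 0 < H := by omega
  have hHR : (1 : ℝ) ≤ H := by exact_mod_cast hH
  set τ : ℝ := 1 / (12 * H) with hτ
  set W : ℤ × ℕ → Finset ℕ := fun x => posSet (vec2 ((x.1 : ℝ) / x.2)) (Kof (δ x.2)) τ with hW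
  have hWprop : ∀ x ∈ fracs B H Q, ∀ l ∈ W x, 0 < l ∧ 24 * δ x.2 * l ≤ 1 ∧
      ∀ i : Fin 2, ∃ s : ℤ, |(l : ℝ) * vec2 ((x.1 : ℝ) / x.2) i - s| ≤ τ := by
    intro x hx l hl
    rw [mem_fracs] at hx
    obtain ⟨hδpos, _, _⟩ := hδ x.2 hx.1.1 hx.1.2
    simp only [hW, posSet] at hl
    rw [mem_filter, mem_range] at hl
    obtain ⟨h1, h2, h3⟩ := hl
    refine ⟨h2, ?_, h3⟩
    unfold Kof at h1
    have h4 : l < ⌊1 / (24 * δ x.2)⌋₊ := by
      rcases lt_max_iff.mp h1 with h | h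
      · omega
      · exact h
    have h5 : (l : ℝ) ≤ 1 / (24 * δ x.2) := by
      have h6 := Nat.floor_le (a := 1 / (24 * δ x.2)) (by positivity)
      have h7 : (l : ℝ) ≤ (⌊1 / (24 * δ x.2)⌋₊ : ℝ) := by exact_mod_cast h4.le
      linarith
    rw [le_div_iff₀ (by positivity)] at h5
    linarith
  have hswap : ∑ x ∈ fracs B H Q, δ x.2 * ((W x).card : ℝ)
      = ∑ l ∈ Icc 1 Kmax, ∑ x ∈ (fracs B H Q).filter (fun x => l ∈ W x), δ x.2 := by
    have h1 : ∀ x ∈ fracs B H Q, δ x.2 * ((W x).card : ℝ)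
        = ∑ l ∈ Icc 1 Kmax, (if l ∈ W x then δ x.2 else 0) := by
      intro x hx
      have heq : W x = (Icc 1 Kmax).filter (fun l => l ∈ W x) := by
        ext l
        rw [mem_filter, mem_Icc]
        constructor
        · intro hl
          obtain ⟨h2, h3, _⟩ := hWprop x hx l hl
          rw [mem_fracs] at hx
          exact ⟨⟨h2, (hδ x.2 hx.1.1 hx.1.2).2.2 l h3⟩, hl⟩
        · intro h; exact h.2
      rw [← Finset.sum_filter, Finset.sum_const, nsmul_eq_mul, mul_comm, ← heq]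
    rw [Finset.sum_congr rfl h1, Finset.sum_comm]
    apply Finset.sum_congr rfl
    intro l _
    rw [Finset.sum_filter]
  rw [hswap]
  -- bound for the number of `j`
  set M : ℕ := H / (B + 1) with hM
  have hMpos : 0 < M := Nat.div_pos hHB (by omega)
  have hMle : (M : ℝ) * (B + 1) ≤ H := by
    have : M * (B + 1) ≤ H := Nat.div_mul_le_self H (B + 1)
    exact_mod_cast this
  have hMge : (H : ℝ) ≤ 2 * (B + 1) * M := by
    have h1 : H < (B + 1) * (M + 1) := Nat.lt_mul_div_succ H (by omega : 0 < B + 1)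
    have h2 : H ≤ 2 * (B + 1) * M := by nlinarith
    exact_mod_cast h2
  have hη : 6 * (M : ℝ) * (((B : ℝ) + 1) / (6 * H)) ≤ 1 := by
    have : 6 * (M : ℝ) * (((B : ℝ) + 1) / (6 * H)) = M * (B + 1) / H := by field_simp
    rw [this, div_le_one (by linarith)]
    exact hMle
  have hterm : ∀ l ∈ Icc 1 Kmax, ∑ x ∈ (fracs B H Q).filter (fun x => l ∈ W x), δ x.2
      ≤ C1 * J * (2 * (B + 1) / H + 2 * Real.sqrt Cd *
        ((Kmax : ℝ) ^ (1 / 2 + 2 * ε') * (l : ℝ) ^ (-(1 + ε')))) := by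
    intro l hl
    rw [mem_Icc] at hl
    have hlR : (1 : ℝ) ≤ l := by exact_mod_cast hl.1
    have hlpos : (0 : ℝ) < l := by linarith
    have h1 := sum_fixed_l (B := B) (H := H) (Q := Q) (J := J) (l := l) hH hl.1 hJ hc0 δ
      (fun q h1 h2 => (hδ q h1 h2).2.1) ((fracs B H Q).filter (fun x => l ∈ W x)) (by
        intro x hx
        rw [mem_filter] at hx
        exact ⟨hx.1, (hWprop x hx.1 l hx.2).2⟩)
    have h2 := card_nearSq (B := B + 1) (l := l) (M := M) hl.1 hMpos hη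
    have h3 : (l : ℝ) / M ≤ 2 * (B + 1) * l / H := by
      have hMR : (0 : ℝ) < M := by exact_mod_cast hMpos
      rw [div_le_div_iff₀ hMR (by linarith)]
      nlinarith
    have h4 : Real.sqrt (l * (l.divisors.card : ℝ)) ≤ Real.sqrt Cd * (l : ℝ) ^ (1 / 2 + ε') := by
      have h5 := hdiv l (by omega)
      have h6 : (l : ℝ) * (l.divisors.card : ℝ) ≤ Cd * ((l : ℝ) ^ (1 / 2 + ε')) ^ 2 := by
        have h7 : ((l : ℝ) ^ (1 / 2 + ε')) ^ 2 = l * (l : ℝ) ^ (2 * ε') := by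
          rw [← Real.rpow_natCast, ← Real.rpow_mul hlpos.le]
          have : (1 / 2 + ε') * ((2 : ℕ) : ℝ) = 1 + 2 * ε' := by push_cast; ring
          rw [this, Real.rpow_add hlpos, Real.rpow_one]
        rw [h7]
        calc (l : ℝ) * (l.divisors.card : ℝ) ≤ l * (Cd * (l : ℝ) ^ (2 * ε')) := by gcongr
          _ = _ := by ring
      calc Real.sqrt (l * (l.divisors.card : ℝ)) ≤ Real.sqrt (Cd * ((l : ℝ) ^ (1 / 2 + ε')) ^ 2) :=
            Real.sqrt_le_sqrt h6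
        _ = _ := by rw [Real.sqrt_mul hCd.le, Real.sqrt_sq (by positivity)]
    have h5 : (l : ℝ) ^ (1 / 2 + ε') / l ≤ (Kmax : ℝ) ^ (1 / 2 + 2 * ε') * (l : ℝ) ^ (-(1 + ε')) := by
      have h6 : (l : ℝ) ^ (1 / 2 + ε') / l = (l : ℝ) ^ (1 / 2 + 2 * ε') * (l : ℝ) ^ (-(1 + ε')) := by
        rw [← Real.rpow_add hlpos, div_eq_mul_inv, ← Real.rpow_neg_one, ← Real.rpow_add hlpos]
        congr 1
        ring
      rw [h6]
      have h7 : (l : ℝ) ≤ Kmax := by exact_mod_cast hl.2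
      have h8 : (l : ℝ) ^ (1 / 2 + 2 * ε') ≤ (Kmax : ℝ) ^ (1 / 2 + 2 * ε') :=
        Real.rpow_le_rpow hlpos.le h7 (by linarith)
      gcongr
    have hJ0 : (0 : ℝ) ≤ J := by positivity
    calc _ ≤ ((nearSq (B + 1) l ((B + 1) / (6 * H))).card : ℝ) * (J * ((1 + c0) / l)) := h1
      _ ≤ (4 * (2 * ((B + 1 : ℕ) : ℝ) + 1) * (2 * (B + 1) * l / H
            + 2 * (Real.sqrt Cd * (l : ℝ) ^ (1 / 2 + ε')))) * (J * ((1 + c0) / l)) := by
          apply mul_le_mul_of_nonneg_right _ (by positivity)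
          refine h2.trans ?_
          gcongr
      _ = C1 * J * (2 * (B + 1) / H + 2 * Real.sqrt Cd * ((l : ℝ) ^ (1 / 2 + ε') / l)) := by
          rw [hC1]; field_simp
      _ ≤ _ := by gcongr
  calc ∑ l ∈ Icc 1 Kmax, ∑ x ∈ (fracs B H Q).filter (fun x => l ∈ W x), δ x.2
      ≤ ∑ l ∈ Icc 1 Kmax, C1 * J * (2 * (B + 1) / H + 2 * Real.sqrt Cd *
        ((Kmax : ℝ) ^ (1 / 2 + 2 * ε') * (l : ℝ) ^ (-(1 + ε')))) := Finset.sum_le_sum hterm
    _ = C1 * J * ((Kmax : ℝ) * (2 * (B + 1) / H) + 2 * Real.sqrt Cd *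
        ((Kmax : ℝ) ^ (1 / 2 + 2 * ε') * ∑ l ∈ Icc 1 Kmax, (l : ℝ) ^ (-(1 + ε')))) := by
        rw [← Finset.mul_sum, Finset.sum_add_distrib, ← Finset.mul_sum, ← Finset.mul_sum,
          Finset.sum_const, Nat.card_Icc, nsmul_eq_mul]
        push_cast
        ring_nf
    _ ≤ C1 * J * ((Kmax : ℝ) * (2 * (B + 1) / H) + 2 * Real.sqrt Cd *
        ((Kmax : ℝ) ^ (1 / 2 + 2 * ε') * Z)) := by
        have h1 : ∑ l ∈ Icc 1 Kmax, (l : ℝ) ^ (-(1 + ε')) ≤ Z :=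
          hsumm.sum_le_tsum _ (fun j _ => by positivity)
        gcongr
    _ ≤ C1 * (2 * (B + 1) + 2 * Real.sqrt Cd * (Z + 1)) * J *
        ((Kmax : ℝ) / H + (Kmax : ℝ) ^ (1 / 2 + 2 * ε')) := by
        have h1 : 0 ≤ (Kmax : ℝ) / H := by positivity
        have h2 : 0 ≤ (Kmax : ℝ) ^ (1 / 2 + 2 * ε') := by positivity
        have h3 : 0 ≤ Real.sqrt Cd := Real.sqrt_nonneg _
        have h4 : (Kmax : ℝ) * (2 * (B + 1) / H) + 2 * Real.sqrt Cd *
            ((Kmax : ℝ) ^ (1 / 2 + 2 * ε') * Z)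
            ≤ (2 * (B + 1) + 2 * Real.sqrt Cd * (Z + 1)) *
              ((Kmax : ℝ) / H + (Kmax : ℝ) ^ (1 / 2 + 2 * ε')) := by
          have e1 : (Kmax : ℝ) * (2 * (B + 1) / H) = (2 * (B + 1)) * ((Kmax : ℝ) / H) := by ring
          rw [e1]
          have h5 : 0 ≤ 2 * Real.sqrt Cd * (Z + 1) * ((Kmax : ℝ) / H) := by positivity
          have h6 : 0 ≤ 2 * ((B : ℝ) + 1) * (Kmax : ℝ) ^ (1 / 2 + 2 * ε') := by positivity
          have h7 : 0 ≤ 2 * Real.sqrt Cd * (Kmax : ℝ) ^ (1 / 2 + 2 * ε') := by positivity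
          nlinarith
        calc _ ≤ C1 * J * ((2 * (B + 1) + 2 * Real.sqrt Cd * (Z + 1)) *
              ((Kmax : ℝ) / H + (Kmax : ℝ) ^ (1 / 2 + 2 * ε'))) := by gcongr
          _ = _ := by ring

end Pool.Agent.Helper92.Avg2
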