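import Mathlib
import Pool.Agent.Helper92.Avg.Main
import Pool.Agent.Helper92.Avg2.Sum
import Pool.Agent.Helper92.Avg2.Growth

/-! Lang's inequality on average over algebraic numbers, denominators up to `H^(3/2-κ)`. -/

set_option autoImplicit false

namespace Pool.Agent.Helper92.Avg2

open Finset Polynomial Pool.Agent.Helper92.Avg Pool.Agent.Helper92.Field

open Classical in
/-- The vectors with a small value at some fraction with denominator in `(H, Q]`. -/
noncomputable def badSet2 (e B H Q : ℕ) (δ : ℕ → ℝ) : Finset (Fin (e + 3) → ℤ) :=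
  (fracs B H Q).biUnion fun x =>
    (Avg.box (e + 3) H).filter fun a => |∑ i : Fin (e + 3), (a i : ℝ) * ((x.1 : ℝ) / x.2) ^ (i : ℕ)|
      ≤ δ x.2

lemma card_badSet2 {e B : ℕ} (hB : 1 ≤ B) {ε D c κ : ℝ} (hε : 0 < ε) (hD : 1 ≤ D) (hc : 0 < c)
    (hc1 : c ≤ 1) (hκ : 0 < κ) (hκ2 : κ ≤ 1 / 2) :
    ∀ᶠ H : ℕ in Filter.atTop, ∀ Q : ℕ, (Q : ℝ) ≤ (H : ℝ) ^ (3 / 2 - κ) →
      ((badSet2 e B H Q (fun q => c * psi ε q * (H * D))).card : ℝ)
        ≤ (3 ^ e * (192 * 24 ^ 2) * (3 * B * D * Zsum ε + 1)) * c * (H : ℝ) ^ (e + 3) := by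
  obtain ⟨C5, hC5, hsecond⟩ := second_sum B (c0 := c * D) (ε' := κ / 48) (by positivity)
    (by positivity)
  filter_upwards [growth hκ hκ2 hε hc hD hC5, Filter.eventually_ge_atTop (max 3 (B + 1)),
    Filter.eventually_gt_atTop ⌈2 * D⌉₊] with H hgrow hHmax hHD
  intro Q hQ
  have hH3 : 3 ≤ H := (le_max_left _ _).trans hHmax
  have hHB : B + 1 ≤ H := (le_max_right _ _).trans hHmax
  have hHR : (3 : ℝ) ≤ H := by exact_mod_cast hH3
  have hHpos : (0 : ℝ) < H := by linarith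
  have hDH : 2 * D < H := (Nat.le_ceil _).trans_lt (by exact_mod_cast hHD)
  have hZ0 := Zsum_nonneg ε
  rcases Nat.lt_or_ge H Q with hHQ | hHQ
  swap
  · -- no fractions
    have hempty : fracs B H Q = ∅ := by
      apply Finset.eq_empty_of_forall_notMem
      intro x hx
      rw [mem_fracs] at hx
      omega
    unfold badSet2
    rw [hempty, biUnion_empty, card_empty, Nat.cast_zero]
    positivity
  have hQ2 : 2 ≤ Q := by omega
  set δ : ℕ → ℝ := fun q => c * psi ε q * (H * D) with hδ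
  have hDpos : 0 < D := by linarith
  have hpsi : ∀ q, H < q → psi ε q = 1 / ((q : ℝ) ^ 2 * (Real.log (q : ℝ)) ^ (1 + ε)) := by
    intro q hq
    unfold psi
    rw [max_eq_left (by omega)]
  have hlog1 : ∀ q : ℕ, H < q → 1 ≤ (Real.log (q : ℝ)) ^ (1 + ε) := by
    intro q hq
    apply Real.one_le_rpow _ (by linarith)
    have hq3 : (3 : ℝ) ≤ q := by
      have : 3 ≤ q := by omega
      exact_mod_cast this
    rw [Real.le_log_iff_exp_le (by linarith)]
    have := Real.exp_one_lt_d9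
    linarith
  have hprops : ∀ q, H < q → q ≤ Q → 0 < δ q ∧ δ q ≤ (c * D) * H / (q : ℝ) ^ 2 ∧
      ∀ l : ℕ, 24 * δ q * l ≤ 1 →
        l ≤ ⌊(Q : ℝ) ^ 2 * (Real.log Q) ^ (1 + ε) / (c * D * H)⌋₊ := by
    intro q hq hqQ
    have hqR : (0 : ℝ) < q := by
      have : 0 < q := by omega
      exact_mod_cast this
    have hl1 := hlog1 q hq
    have hpsipos := psi_pos ε q
    refine ⟨by simp only [hδ]; positivity, ?_, ?_⟩
    · simp only [hδ]
      rw [hpsi q hq]
      calc c * (1 / ((q : ℝ) ^ 2 * (Real.log (q : ℝ)) ^ (1 + ε))) * (H * D)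
          ≤ c * (1 / ((q : ℝ) ^ 2 * 1)) * (H * D) := by gcongr
        _ = _ := by ring
    · intro l hl
      apply Nat.le_floor
      rw [le_div_iff₀ (by positivity)]
      simp only [hδ] at hl
      rw [hpsi q hq] at hl
      have h1 : 24 * (c * (1 / ((q : ℝ) ^ 2 * (Real.log (q : ℝ)) ^ (1 + ε))) * (H * D)) * l
          = 24 * (l * (c * D * H)) / ((q : ℝ) ^ 2 * (Real.log (q : ℝ)) ^ (1 + ε)) := by ring
      rw [h1, div_le_one (by positivity)] at hl
      have h2 : 0 ≤ (l : ℝ) * (c * D * H) := by positivity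
      have hqQR : (q : ℝ) ≤ Q := by exact_mod_cast hqQ
      have hlogq : 0 ≤ Real.log (q : ℝ) := Real.log_natCast_nonneg q
      have h3 : (Real.log (q : ℝ)) ^ (1 + ε) ≤ (Real.log (Q : ℝ)) ^ (1 + ε) :=
        Real.rpow_le_rpow hlogq (Real.log_le_log hqR hqQR) (by linarith)
      calc (l : ℝ) * (c * D * H) ≤ (q : ℝ) ^ 2 * (Real.log (q : ℝ)) ^ (1 + ε) := by linarith
        _ ≤ (Q : ℝ) ^ 2 * (Real.log (Q : ℝ)) ^ (1 + ε) := by gcongr
  have hsec := hsecond H Q (Nat.log 2 Q + 1)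
    ⌊(Q : ℝ) ^ 2 * (Real.log Q) ^ (1 + ε) / (c * D * H)⌋₊ δ hHB
    (Nat.lt_pow_succ_log_self (by norm_num) Q) hprops
  have hg := hgrow Q hQ2 hQ
  -- first sum
  have hfirst : ∑ x ∈ fracs B H Q, δ x.2 ≤ 3 * B * D * Zsum ε * c * H := by
    rw [sum_fracs]
    have hBR : (1 : ℝ) ≤ B := by exact_mod_cast hB
    calc _ ≤ ∑ q ∈ Ioc H Q, (3 * B * D * c * H) * ((q : ℝ) * psi ε q) := by
          apply Finset.sum_le_sum
          intro q hq
          rw [mem_Ioc] at hq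
          dsimp only
          rw [sum_const, nsmul_eq_mul]
          have hqR : (1 : ℝ) ≤ q := by
            have : 1 ≤ q := by omega
            exact_mod_cast this
          have h1 : (((Icc (-(B * q : ℤ)) (B * q)).filter (fun p => IsCoprime p (q : ℤ))).card : ℝ)
              ≤ 3 * B * q := by
            have h2 : ((Icc (-(B * q : ℤ)) (B * q)).filter (fun p => IsCoprime p (q : ℤ))).card
                ≤ 2 * (B * q) + 1 := by
              refine (card_filter_le _ _).trans ?_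
              rw [Int.card_Icc]
              omega
            have h3 : ((2 * (B * q) + 1 : ℕ) : ℝ) ≤ 3 * B * q := by
              push_cast
              nlinarith
            exact le_trans (by exact_mod_cast h2) h3
          have h4 : 0 ≤ δ q := (hprops q hq.1 hq.2).1.le
          calc _ ≤ (3 * B * q : ℝ) * δ q := mul_le_mul_of_nonneg_right h1 h4
            _ = _ := by simp only [hδ]; ring
      _ = (3 * B * D * c * H) * ∑ q ∈ Ioc H Q, ((q : ℝ) * psi ε q) := by rw [Finset.mul_sum]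
      _ ≤ (3 * B * D * c * H) * Zsum ε := by
          apply mul_le_mul_of_nonneg_left (sum_le_Zsum hε _) (by positivity)
      _ = _ := by ring
  have hcard : ∀ x ∈ fracs B H Q, (((Avg.box (e + 3) H).filter fun a =>
      |∑ i : Fin (e + 3), (a i : ℝ) * ((x.1 : ℝ) / x.2) ^ (i : ℕ)| ≤ δ x.2).card : ℝ)
      ≤ (3 * (H : ℝ)) ^ e * (192 * 24 ^ 2 * (H : ℝ) ^ 2 * (δ x.2 *
        (1 + 2 * ((posSet (vec2 ((x.1 : ℝ) / x.2)) (Kof (δ x.2)) (1 / (12 * H))).card : ℝ)))) := by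
    intro x hx
    rw [mem_fracs] at hx
    obtain ⟨h1, h2, _⟩ := hprops x.2 hx.1.1 hx.1.2
    have hqR : (H : ℝ) < x.2 := by exact_mod_cast hx.1.1
    have hx2pos : (0 : ℝ) < x.2 := by linarith
    have hδ2 : δ x.2 < 1 / 2 := by
      refine h2.trans_lt ?_
      rw [div_lt_iff₀ (by positivity)]
      have h3 : (H : ℝ) * H ≤ (x.2 : ℝ) ^ 2 := by nlinarith
      have h4 : c * D * H ≤ D * H := by
        have : c * D ≤ 1 * D := by gcongr
        nlinarith
      nlinarith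
    refine (card_small_value (by omega) _ h1 hδ2).trans ?_
    have h5 : 2 * (H : ℝ) + 1 ≤ 3 * H := by linarith
    gcongr
  calc ((badSet2 e B H Q δ).card : ℝ)
      ≤ ∑ x ∈ fracs B H Q, (((Avg.box (e + 3) H).filter fun a =>
      |∑ i : Fin (e + 3), (a i : ℝ) * ((x.1 : ℝ) / x.2) ^ (i : ℕ)| ≤ δ x.2).card : ℝ) := by
        unfold badSet2
        exact_mod_cast card_biUnion_le
    _ ≤ ∑ x ∈ fracs B H Q, (3 * (H : ℝ)) ^ e * (192 * 24 ^ 2 * (H : ℝ) ^ 2 * (δ x.2 *
        (1 + 2 * ((posSet (vec2 ((x.1 : ℝ) / x.2)) (Kof (δ x.2)) (1 / (12 * H))).card : ℝ)))) :=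
        Finset.sum_le_sum hcard
    _ = (3 ^ e * (192 * 24 ^ 2) * (H : ℝ) ^ (e + 2)) * (∑ x ∈ fracs B H Q, δ x.2
        + 2 * ∑ x ∈ fracs B H Q, δ x.2 *
          ((posSet (vec2 ((x.1 : ℝ) / x.2)) (Kof (δ x.2)) (1 / (12 * H))).card : ℝ)) := by
        rw [Finset.mul_sum (fracs B H Q) _ 2, ← Finset.sum_add_distrib, Finset.mul_sum]
        apply Finset.sum_congr rfl
        intro x _
        rw [mul_pow, pow_add (H : ℝ) e 2]
        ring
    _ ≤ (3 ^ e * (192 * 24 ^ 2) * (H : ℝ) ^ (e + 2)) * (3 * B * D * Zsum ε * c * H + c * H) := by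
        apply mul_le_mul_of_nonneg_left _ (by positivity)
        have h1 : 2 * ∑ x ∈ fracs B H Q, δ x.2 *
          ((posSet (vec2 ((x.1 : ℝ) / x.2)) (Kof (δ x.2)) (1 / (12 * H))).card : ℝ) ≤ c * H := by
          calc _ ≤ 2 * (C5 * ((Nat.log 2 Q + 1 : ℕ) : ℝ) *
              ((⌊(Q : ℝ) ^ 2 * (Real.log Q) ^ (1 + ε) / (c * D * H)⌋₊ : ℝ) / H +
              (⌊(Q : ℝ) ^ 2 * (Real.log Q) ^ (1 + ε) / (c * D * H)⌋₊ : ℝ) ^
                (1 / 2 + 2 * (κ / 48)))) := by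
                apply mul_le_mul_of_nonneg_left hsec (by norm_num)
            _ ≤ c * H := hg
        linarith
    _ = _ := by ring

/-- The upper bound for the number of exceptional algebraic numbers. -/
theorem upper_bound2 {d : ℕ} (hd : 2 ≤ d) {R ε : ℝ} (hε : 0 < ε) :
    ∃ C : ℝ, 0 ≤ C ∧ ∀ c : ℝ, 0 < c → c ≤ 1 → ∀ κ : ℝ, 0 < κ → ∀ᶠ H : ℕ in Filter.atTop,
      ∃ F : Finset ℝ, (F.card : ℝ) ≤ C * c * (H : ℝ) ^ (d + 1) ∧
        ∀ ξ : ℝ, |ξ| ≤ R → (minpoly ℚ ξ).natDegree = d →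
          (∃ P : ℤ[X], P ≠ 0 ∧ P.natDegree ≤ d ∧ (∀ i, |P.coeff i| ≤ (H : ℤ)) ∧ aeval ξ P = 0) →
          (∃ (p : ℤ) (q : ℕ), 2 ≤ q ∧ (q : ℝ) ≤ (H : ℝ) ^ (3 / 2 - κ) ∧
            |ξ - (p : ℝ) / q| ≤ c / ((q : ℝ) ^ 2 * (Real.log (q : ℝ)) ^ (1 + ε))) → ξ ∈ F := by
  classical
  obtain ⟨e, rfl⟩ : ∃ e, d = e + 2 := ⟨d - 2, by omega⟩
  set B : ℕ := ⌈|R| + psi ε 0 + 1⌉₊ with hB
  have hpsi0 := psi_pos ε 0
  have hBR : |R| + psi ε 0 + 1 ≤ B := Nat.le_ceil _
  have hB1R : (1 : ℝ) ≤ B := by have := abs_nonneg R; linarith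
  have hB1 : 1 ≤ B := by exact_mod_cast hB1R
  set D : ℝ := ((e + 2 : ℕ) + 1) * (e + 2 : ℕ) * (B : ℝ) ^ (e + 2) with hD
  have hD1 : 1 ≤ D := by
    rw [hD]
    have h1 : (1 : ℝ) ≤ (B : ℝ) ^ (e + 2) := one_le_pow₀ hB1R
    push_cast
    have h2 : (0 : ℝ) ≤ e := by positivity
    have h3 : (1 : ℝ) ≤ ((e : ℝ) + 2 + 1) * (e + 2) := by nlinarith
    exact one_le_mul_of_one_le_of_one_le h3 h1
  have hD0 : 0 ≤ D := by linarith
  have hZ0 := Zsum_nonneg ε
  set C1 : ℝ := 6 * B * D * 4 ^ (e + 2) * Zsum ε with hC1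
  set C2 : ℝ := 3 ^ e * (192 * 24 ^ 2) * (3 * B * D * Zsum ε + 1) with hC2
  refine ⟨((e + 2 : ℕ) : ℝ) * (C1 + C2), by positivity, ?_⟩
  intro c hc hc1 κ hκ
  have hκ' : 0 < min κ (1 / 2) := lt_min hκ (by norm_num)
  filter_upwards [card_badSet2 (e := e) hB1 hε hD1 hc hc1 hκ' (min_le_right _ _),
    Filter.eventually_ge_atTop 1] with H hcard2 hH1
  have hHR : (1 : ℝ) ≤ H := by exact_mod_cast hH1
  set Q : ℕ := ⌊(H : ℝ) ^ (3 / 2 - κ)⌋₊ with hQ
  have hQle : (Q : ℝ) ≤ (H : ℝ) ^ (3 / 2 - min κ (1 / 2)) :=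
    (Nat.floor_le (by positivity)).trans
      (Real.rpow_le_rpow_of_exponent_le hHR (by linarith [min_le_left κ (1 / 2)]))
  have hc2 := hcard2 Q hQle
  set M : ℕ → ℝ := fun q => (q : ℝ) ^ (e + 2) * (c * psi ε q) * (H * D) with hM
  have hc1' := card_badSet_le (d := e + 2) (H := H) hε hB1R hD0 hc.le
  set A1 := badSet (e + 2) H B M with hA1
  set A2 := badSet2 e B H Q (fun q => c * psi ε q * (H * D)) with hA2
  refine ⟨(A1 ∪ A2).biUnion fun a => (polyR a).roots.toFinset, ?_, ?_⟩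
  · calc (((A1 ∪ A2).biUnion fun a => (polyR a).roots.toFinset).card : ℝ)
        ≤ ((∑ a ∈ A1 ∪ A2, (polyR a).roots.toFinset.card : ℕ) : ℝ) :=
          Nat.cast_le.mpr card_biUnion_le
      _ ≤ ((∑ a ∈ A1 ∪ A2, (e + 2) : ℕ) : ℝ) := by
          apply Nat.cast_le.mpr
          apply Finset.sum_le_sum
          intro a _
          exact (Multiset.toFinset_card_le _).trans ((card_roots' _).trans (polyR_natDegree a))
      _ = ((e + 2 : ℕ) : ℝ) * ((A1 ∪ A2).card : ℝ) := by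
          rw [sum_const, smul_eq_mul]; push_cast; ring
      _ ≤ ((e + 2 : ℕ) : ℝ) * ((A1.card : ℝ) + (A2.card : ℝ)) := by
          apply mul_le_mul_of_nonneg_left _ (by positivity)
          exact_mod_cast card_union_le _ _
      _ ≤ ((e + 2 : ℕ) : ℝ) * (C1 * c * (H : ℝ) ^ (e + 2 + 1) + C2 * c * (H : ℝ) ^ (e + 3)) := by
          gcongr
      _ = _ := by ring
  · rintro ξ hξR hξd ⟨P, hP0, hPd, hPH, hroot⟩ ⟨p, q, hq2, hqH, hle⟩
    rw [mem_biUnion]
    refine ⟨fun i => P.coeff i, ?_, ?_⟩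
    · -- lowest terms
      obtain ⟨g, p', q', hg, hcop, hp, hqq⟩ :
          ∃ (g : ℕ) (p' : ℤ) (q' : ℕ), 0 < g ∧ IsCoprime p' (q' : ℤ) ∧ p = p' * g ∧ q = q' * g := by
        have hgpos : 0 < Int.gcd p q := Int.gcd_pos_of_ne_zero_right _ (by
          have : 0 < q := by omega
          exact_mod_cast this.ne')
        obtain ⟨m, n, hmn, h1, h2⟩ := Int.exists_gcd_one (m := p) (n := (q : ℤ)) hgpos
        have hn : 0 ≤ n := by
          by_contra hneg
          push Not at hneg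
          have h3 : (q : ℤ) < 0 := by
            rw [h2]; exact mul_neg_of_neg_of_pos hneg (by exact_mod_cast hgpos)
          omega
        lift n to ℕ using hn
        refine ⟨Int.gcd p q, m, n, hgpos, Int.isCoprime_iff_gcd_eq_one.mpr hmn, h1, ?_⟩
        exact_mod_cast h2
      have hq'pos : 0 < q' := by
        rcases Nat.eq_zero_or_pos q' with h | h
        · rw [h] at hqq; omega
        · exact h
      have hq'q : q' ≤ q := by rw [hqq]; exact Nat.le_mul_of_pos_right _ hg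
      have hfrac : (p : ℝ) / q = (p' : ℝ) / q' := by
        rw [hp, hqq]
        push_cast
        have : (g : ℝ) ≠ 0 := by exact_mod_cast hg.ne'
        have : (q' : ℝ) ≠ 0 := by exact_mod_cast hq'pos.ne'
        field_simp
      rw [hfrac] at hle
      have hle2 : |ξ - (p' : ℝ) / q'| ≤ c * psi ε q' := by
        refine hle.trans ?_
        have h3 := le_psi hε hq2 hq'q
        calc c / ((q : ℝ) ^ 2 * (Real.log (q : ℝ)) ^ (1 + ε))
            = c * (1 / ((q : ℝ) ^ 2 * (Real.log (q : ℝ)) ^ (1 + ε))) := by ring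
          _ ≤ c * psi ε q' := mul_le_mul_of_nonneg_left h3 hc.le
      have hpsi_le : psi ε q' ≤ psi ε 0 :=
        le_psi hε (q' := 0) (q := max q' 2) (le_max_right _ _) (Nat.zero_le _)
      have hθ : |(p' : ℝ) / q'| ≤ B := by
        have h4 : |(p' : ℝ) / q'| ≤ |ξ| + |ξ - (p' : ℝ) / q'| := by
          have h5 := abs_sub_abs_le_abs_sub ((p' : ℝ) / q') ξ
          rw [abs_sub_comm ξ]
          linarith
        have h6 : c * psi ε q' ≤ psi ε 0 := by
          calc c * psi ε q' ≤ 1 * psi ε 0 := by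
                apply mul_le_mul hc1 hpsi_le (psi_pos ε q').le (by norm_num)
            _ = _ := by ring
        have := le_abs_self R
        linarith
      have hξB : |ξ| ≤ B := by have := le_abs_self R; linarith
      have hbox : (fun i : Fin (e + 2 + 1) => P.coeff i) ∈ Avg.box (e + 2 + 1) H := by
        rw [mem_box]; intro i; exact hPH i
      have hq'R : (0 : ℝ) < q' := by exact_mod_cast hq'pos
      have hval := abs_aeval_le hB1R hPd hPH hξB hθ hroot
      have hp'B : |(p' : ℝ)| ≤ B * q' := by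
        have h7 : |(p' : ℝ)| = |(p' : ℝ) / q'| * q' := by
          rw [abs_div, abs_of_pos hq'R, div_mul_cancel₀ _ hq'R.ne']
        rw [h7]
        exact mul_le_mul_of_nonneg_right hθ hq'R.le
      have hvle : |aeval ((p' : ℝ) / q') P| ≤ c * psi ε q' * (H * D) := by
        calc |aeval ((p' : ℝ) / q') P|
            ≤ |ξ - (p' : ℝ) / q'| * (H * (((e + 2 : ℕ) + 1) * (e + 2 : ℕ) * (B : ℝ) ^ (e + 2))) :=
              hval
          _ ≤ (c * psi ε q') * (H * (((e + 2 : ℕ) + 1) * (e + 2 : ℕ) * (B : ℝ) ^ (e + 2))) := by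
              gcongr
          _ = _ := by rw [hD]
      rw [mem_union]
      rcases Nat.lt_or_ge H q' with hHq | hHq
      · right
        rw [hA2]
        unfold badSet2
        rw [mem_biUnion]
        refine ⟨(p', q'), ?_, ?_⟩
        · rw [mem_fracs]
          refine ⟨⟨hHq, ?_⟩, ?_, hcop⟩
          · exact hq'q.trans (Nat.le_floor hqH)
          · exact_mod_cast hp'B
        · rw [mem_filter]
          refine ⟨hbox, ?_⟩
          have h1 : ∑ i : Fin (e + 3), ((P.coeff (i : ℕ) : ℤ) : ℝ) * ((p' : ℝ) / q') ^ (i : ℕ)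
              = aeval ((p' : ℝ) / q') P := by
            rw [aeval_eq_sum_range' (n := e + 3) (by omega),
              Fin.sum_univ_eq_sum_range
                (fun i => ((P.coeff i : ℤ) : ℝ) * ((p' : ℝ) / q') ^ i) (e + 3)]
            apply Finset.sum_congr rfl
            intro i _
            rw [zsmul_eq_mul]
          simp only
          rw [h1]
          exact hvle
      · left
        apply mem_badSet hbox (p := p') (q := q') hq'pos hHq hcop hp'B
        · intro h0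
          have h8 := form_eq hPd p' hq'pos
          rw [h0] at h8
          have h9 := aeval_ne_zero hd hξd hP0 hPd hroot p' q'
          have h10 : (q' : ℝ) ^ (e + 2) ≠ 0 := by positivity
          rw [Int.cast_zero] at h8
          rcases mul_eq_zero.mp h8.symm with h | h
          · exact h10 h
          · exact h9 h
        · rw [form_eq hPd p' hq'pos, abs_mul,
            abs_of_pos (by positivity : (0 : ℝ) < (q' : ℝ) ^ (e + 2))]
          calc (q' : ℝ) ^ (e + 2) * |aeval ((p' : ℝ) / q') P|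
              ≤ (q' : ℝ) ^ (e + 2) * (c * psi ε q' * (H * D)) := by gcongr
            _ = M q' := by simp only [hM]; ring
    · rw [Multiset.mem_toFinset, polyR_coeffs hPd, mem_roots']
      refine ⟨?_, ?_⟩
      · rw [Ne, Polynomial.map_eq_zero_iff (algebraMap ℤ ℝ).injective_int]; exact hP0
      · rw [IsRoot, eval_map_algebraMap]; exact hroot

theorem average_lang2 {d : ℕ} (hd : 2 ≤ d) {R : ℝ} (hR : 1 ≤ R) {ε : ℝ} (hε : 0 < ε) :
    ∃ C : ℝ, ∀ c : ℝ, 0 < c → ∀ κ : ℝ, 0 < κ → ∀ᶠ H : ℕ in Filter.atTop,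
      (({ξ ∈ AlgNums d H R | ∃ (p : ℤ) (q : ℕ), 2 ≤ q ∧ (q : ℝ) ≤ (H : ℝ) ^ (3 / 2 - κ) ∧
          |ξ - (p : ℝ) / q| ≤ c / ((q : ℝ) ^ 2 * (Real.log (q : ℝ)) ^ (1 + ε))}).ncard : ℝ)
        ≤ C * c * ((AlgNums d H R).ncard : ℝ) := by
  obtain ⟨C, hC0, hC⟩ := upper_bound2 hd (R := R) hε
  set k : ℝ := (3 / 44 : ℝ) * (1 / 44) ^ (d + 1) with hk
  have hk0 : 0 < k := by positivity
  refine ⟨C / k + 1, ?_⟩
  intro c hc κ hκ
  rcases le_or_gt c 1 with hc1 | hc1
  · filter_upwards [hC c hc hc1 κ hκ, Filter.eventually_ge_atTop 22] with H hH hH22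
    obtain ⟨F, hF, hF2⟩ := hH
    have hsub : {ξ ∈ AlgNums d H R | ∃ (p : ℤ) (q : ℕ), 2 ≤ q ∧ (q : ℝ) ≤ (H : ℝ) ^ (3 / 2 - κ) ∧
        |ξ - (p : ℝ) / q| ≤ c / ((q : ℝ) ^ 2 * (Real.log (q : ℝ)) ^ (1 + ε))} ⊆ (F : Set ℝ) := by
      rintro ξ ⟨⟨h1, h2, h3⟩, h4⟩
      exact hF2 ξ h1 h2 h3 h4
    have h5 := Set.ncard_le_ncard hsub F.finite_toSet
    rw [Set.ncard_coe_finset] at h5
    have h6 := card_algNums hd hH22 hR
    calc _ ≤ (F.card : ℝ) := by exact_mod_cast h5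
      _ ≤ C * c * (H : ℝ) ^ (d + 1) := hF
      _ = C / k * c * (k * (H : ℝ) ^ (d + 1)) := by field_simp
      _ ≤ C / k * c * ((AlgNums d H R).ncard : ℝ) := by gcongr
      _ ≤ (C / k + 1) * c * ((AlgNums d H R).ncard : ℝ) := by
          have h7 : 0 ≤ c * ((AlgNums d H R).ncard : ℝ) := by positivity
          nlinarith
  · refine Filter.Eventually.of_forall fun H => ?_
    have h1 : ({ξ ∈ AlgNums d H R | ∃ (p : ℤ) (q : ℕ), 2 ≤ q ∧ (q : ℝ) ≤ (H : ℝ) ^ (3 / 2 - κ) ∧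
        |ξ - (p : ℝ) / q| ≤ c / ((q : ℝ) ^ 2 * (Real.log (q : ℝ)) ^ (1 + ε))}).ncard
        ≤ (AlgNums d H R).ncard :=
      Set.ncard_le_ncard (Set.sep_subset _ _) (algNums_finite d H R)
    have h2 : (1 : ℝ) ≤ (C / k + 1) * c := by
      have : 0 ≤ C / k := by positivity
      nlinarith
    calc _ ≤ ((AlgNums d H R).ncard : ℝ) := by exact_mod_cast h1
      _ = 1 * ((AlgNums d H R).ncard : ℝ) := (one_mul _).symm
      _ ≤ _ := by gcongr

end Pool.Agent.Helper92.Avg2
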